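import Pool.Agent.H749.PT.Fin

set_option autoImplicit false
set_option linter.unusedSectionVars false
set_option linter.unusedVariables false

open CategoryTheory CategoryTheory.Limits CategoryTheory.Pretriangulated
open Pool.Agent.V1166.Sph (tpow IsCalabiYau)

namespace Pool.Agent.H749.PT

universe v u w

section

variable {C : Type u} [Category.{v} C] [HasShift C ℤ]

/-- `E` and `E'` are isomorphic up to a shift. -/
def GIso (E E' : C) : Prop :=
  ∃ (m m' : ℤ) (h : m' + m = 0) (h' : m + m' = 0) (κ : ShiftedHom E E' m)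
    (κ' : ShiftedHom E' E m'),
    κ.comp κ' h = ShiftedHom.mk₀ 0 rfl (𝟙 E) ∧ κ'.comp κ h' = ShiftedHom.mk₀ 0 rfl (𝟙 E')

theorem GIso.of_iso {E E' : C} (e : E ≅ E') : GIso E E' := by
  refine ⟨0, 0, by omega, by omega, ShiftedHom.mk₀ 0 rfl e.hom, ShiftedHom.mk₀ 0 rfl e.inv, ?_, ?_⟩
  · rw [ShiftedHom.mk₀_comp_mk₀, e.hom_inv_id]
  · rw [ShiftedHom.mk₀_comp_mk₀, e.inv_hom_id]

theorem GIso.symm {E E' : C} (h : GIso E E') : GIso E' E := by
  obtain ⟨m, m', h, h', κ, κ', h1, h2⟩ := h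
  exact ⟨m', m, h', h, κ', κ, h2, h1⟩

theorem GIso.trans {E E' E'' : C} (h : GIso E E') (h' : GIso E' E'') : GIso E E'' := by
  obtain ⟨m, m', hm, hm', κ, κ', h1, h2⟩ := h
  obtain ⟨n, n', hn, hn', μ, μ', h3, h4⟩ := h'
  refine ⟨n + m, m' + n', by omega, by omega, κ.comp μ rfl, μ'.comp κ' rfl, ?_, ?_⟩
  · rw [ShiftedHom.comp_assoc κ μ (μ'.comp κ' rfl) (a₂₃ := m') (h₁₂ := rfl)
      (h₂₃ := by omega) (h := by omega),
      ← ShiftedHom.comp_assoc μ μ' κ' (a₁₂ := 0) (h₁₂ := by omega) (h₂₃ := rfl)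
        (h := by omega), h3, ShiftedHom.mk₀_id_comp, h1]
  · rw [ShiftedHom.comp_assoc μ' κ' (κ.comp μ rfl) (a₂₃ := n) (h₁₂ := rfl)
      (h₂₃ := by omega) (h := by omega),
      ← ShiftedHom.comp_assoc κ' κ μ (a₁₂ := 0) (h₁₂ := by omega) (h₂₃ := rfl)
        (h := by omega), h2, ShiftedHom.mk₀_id_comp, h4]

variable (C) in
/-- isomorphism up to shift, as an equivalence relation -/
def gSetoid : Setoid C where
  r := GIso
  iseqv := ⟨fun E => GIso.of_iso (Iso.refl E), fun h => h.symm, fun h h' => h.trans h'⟩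

theorem GIso.shift (E : C) (m : ℤ) : GIso (E⟦m⟧) E := by
  have h : -m + m = 0 := by omega
  refine ⟨m, -m, h, by omega, 𝟙 (E⟦m⟧), (shiftFunctorCompIsoId C m (-m) (by omega)).inv.app E,
    ?_, ?_⟩
  · rw [ShiftedHom.comp, Category.id_comp, ShiftedHom.mk₀,
      shift_shiftFunctorCompIsoId_inv_app m (-m) (by omega) E, shiftFunctorCompIsoId]
    simp [shiftFunctorZero']
  · rw [ShiftedHom.comp, shiftFunctorCompIsoId, ShiftedHom.mk₀]
    simp [shiftFunctorZero']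

end

section

variable {C : Type u} [Category.{v} C] [Preadditive C] [HasZeroObject C] [HasShift C ℤ]
  [∀ n : ℤ, (shiftFunctor C n).Additive] [Pretriangulated C]
variable {E E' X P : C} {m m' : ℤ} {κ : ShiftedHom E E' m} {κ' : ShiftedHom E' E m'}

theorem cancel (h : m' + m = 0) (h1 : κ.comp κ' h = ShiftedHom.mk₀ 0 rfl (𝟙 E)) {i j : ℤ}
    (x : ShiftedHom X E i) (hj : m + i = j) : (x.comp κ hj).comp κ' (by omega : m' + j = i) = x := by
  rw [ShiftedHom.comp_assoc x κ κ' (a₂₃ := 0) (h₁₂ := hj) (h₂₃ := h) (h := by omega), h1,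
    ShiftedHom.comp_mk₀_id]

theorem comp_ne (h : m' + m = 0) (h1 : κ.comp κ' h = ShiftedHom.mk₀ 0 rfl (𝟙 E)) {i j : ℤ}
    {x : ShiftedHom X E i} (hx : x ≠ 0) (hj : m + i = j) : x.comp κ hj ≠ 0 := by
  intro h0
  apply hx
  rw [← cancel h h1 x hj, h0, ShiftedHom.zero_comp]

theorem Low.trans (h : m' + m = 0) (h' : m + m' = 0)
    (h1 : κ.comp κ' h = ShiftedHom.mk₀ 0 rfl (𝟙 E))
    (h2 : κ'.comp κ h' = ShiftedHom.mk₀ 0 rfl (𝟙 E')) {l : ℤ} (hl : Low X E l) :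
    Low X E' (m + l) := by
  obtain ⟨⟨x, hx⟩, h3⟩ := hl
  refine ⟨⟨x.comp κ rfl, comp_ne h h1 hx rfl⟩, fun i hi y => ?_⟩
  by_contra hy
  exact comp_ne h' h2 hy (rfl : m' + i = m' + i) (h3 _ (by omega) _)

theorem RR.gi {n : ℕ} {k : ℤ} (hE : GIso E E') (hR : RR n k P X E) : RR n k P X E' := by
  obtain ⟨a, a', h, h', κ, κ', h1, h2⟩ := hE
  obtain ⟨l, m, β, hl, hm, hβ, hR⟩ := hR
  refine ⟨a + l, a + m, β, hl.trans h h' h1 h2, hm.trans h h' h1 h2, hβ, ?_⟩
  rcases hR with ⟨hk, hR1, u, hu, hu'⟩ | ⟨hk, hR1, hR2⟩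
  · refine Or.inl ⟨hk, by omega, u.comp κ rfl, comp_ne h h1 hu rfl, fun b j g hj => ?_⟩
    rw [← ShiftedHom.comp_assoc g u κ (a₁₂ := m + b) (h₁₂ := rfl) (h₂₃ := rfl) (h := by omega),
      hu' b _ g rfl, ShiftedHom.zero_comp]
  · refine Or.inr ⟨hk, by omega, fun u' hu' b j hb hj => ?_⟩
    obtain ⟨g, hg⟩ := hR2 (u'.comp κ' (by omega)) (comp_ne h' h2 hu' _) b (m + b) hb rfl
    refine ⟨g, fun h0 => hg ?_⟩
    rw [← ShiftedHom.comp_assoc g u' κ' (a₁₂ := j) (h₁₂ := hj) (h₂₃ := by omega) (h := by omega),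
      h0, ShiftedHom.zero_comp]

theorem QQ.gi {n : ℕ} {k : ℤ} (hE : GIso E E') (hR : QQ n k P X E) : QQ n k P X E' := by
  obtain ⟨a, a', h, h', κ, κ', h1, h2⟩ := hE
  obtain ⟨l, m, β, hl, hm, hβ, hR⟩ := hR
  refine ⟨a + l, a + m, β, hl.trans h h' h1 h2, hm.trans h h' h1 h2, hβ, ?_⟩
  rcases hR with ⟨hk, hR1, hR2⟩ | ⟨hk, hR1⟩
  · refine Or.inl ⟨hk, by omega, fun v g j hj hv hg h0 => ?_⟩
    refine hR2 (v.comp κ' (by omega)) g (l + β) rfl (comp_ne h' h2 hv _) hg ?_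
    rw [← ShiftedHom.comp_assoc g v κ' (a₁₂ := j) (h₁₂ := hj) (h₂₃ := by omega) (h := by omega),
      h0, ShiftedHom.zero_comp]
  · exact Or.inr ⟨hk, by omega⟩

theorem zero_gi (hE : GIso E E') (h0 : ∀ i : ℤ, ∀ x : ShiftedHom X E i, x = 0) :
    ∀ i : ℤ, ∀ x : ShiftedHom X E' i, x = 0 := by
  obtain ⟨a, a', h, h', κ, κ', h1, h2⟩ := hE
  intro i x
  by_contra hx
  exact comp_ne h' h2 hx (rfl : a' + i = a' + i) (h0 _ _)

variable {𝕜 : Type w} [Field 𝕜] [Linear 𝕜 C]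

theorem FinHom.gi [∀ n : ℤ, (shiftFunctor C n).Linear 𝕜] (hE : GIso E E')
    (hf : FinHom 𝕜 X E) : FinHom 𝕜 X E' := by
  obtain ⟨a, a', h, h', κ, κ', h1, h2⟩ := hE
  refine ⟨fun i => ?_, ?_⟩
  · let L : ShiftedHom X E' i →ₗ[𝕜] ShiftedHom X E (a' + i) :=
      { toFun := fun x => x.comp κ' rfl
        map_add' := fun x y => by rw [ShiftedHom.add_comp]
        map_smul' := fun c x => by rw [ShiftedHom.smul_comp]; rfl }
    have h3 := hf.1 (a' + i)
    refine Module.Finite.of_injective L ?_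
    rw [← LinearMap.ker_eq_bot, LinearMap.ker_eq_bot']
    intro x hx
    by_contra hne
    exact comp_ne h' h2 hne rfl hx
  · refine (hf.2.image (fun i => i + a)).subset fun i hi => ?_
    obtain ⟨x, hx⟩ := hi
    exact ⟨a' + i, ⟨_, comp_ne h' h2 hx rfl⟩, (by omega : a' + i + a = i)⟩

/-- the twist, as a permutation of the objects up to isomorphism and shift -/
theorem GIso.map_iff (T : C ≌ C) [T.functor.CommShift ℤ] :
    GIso (T.functor.obj E) (T.functor.obj E') ↔ GIso E E' := by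
  constructor
  · rintro ⟨m, m', h, h', κ, κ', h1, h2⟩
    obtain ⟨κ, rfl⟩ := map_surj T κ
    obtain ⟨κ', rfl⟩ := map_surj T κ'
    refine ⟨m, m', h, h', κ, κ', ?_, ?_⟩
    · apply map_inj T
      rw [ShiftedHom.map_comp, h1, ShiftedHom.map_mk₀, CategoryTheory.Functor.map_id]
    · apply map_inj T
      rw [ShiftedHom.map_comp, h2, ShiftedHom.map_mk₀, CategoryTheory.Functor.map_id]
  · rintro ⟨m, m', h, h', κ, κ', h1, h2⟩
    refine ⟨m, m', h, h', κ.map T.functor, κ'.map T.functor, ?_, ?_⟩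
    · rw [← ShiftedHom.map_comp, h1, ShiftedHom.map_mk₀, CategoryTheory.Functor.map_id]
    · rw [← ShiftedHom.map_comp, h2, ShiftedHom.map_mk₀, CategoryTheory.Functor.map_id]

/-- the permutation of the objects up to isomorphism and shift given by `T` -/
def gPerm (T : C ≌ C) [T.functor.CommShift ℤ] : Equiv.Perm (Quotient (gSetoid C)) where
  toFun := Quotient.map T.functor.obj fun E E' h => (GIso.map_iff T).2 h
  invFun := Quotient.map T.inverse.obj fun E E' h => by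
    refine (GIso.map_iff T).1 ?_
    exact ((GIso.of_iso (T.counitIso.app E)).trans h).trans
      (GIso.of_iso (T.counitIso.app E')).symm
  left_inv := by
    rintro ⟨E⟩
    exact Quotient.sound (GIso.of_iso (T.unitIso.app E)).symm
  right_inv := by
    rintro ⟨E⟩
    exact Quotient.sound (GIso.of_iso (T.counitIso.app E))

end

end Pool.Agent.H749.PT
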