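import Pool.Agent.H749.PT.Obj

set_option autoImplicit false
set_option linter.unusedSectionVars false
set_option linter.unusedVariables false

open CategoryTheory CategoryTheory.Limits CategoryTheory.Pretriangulated
open Pool.Agent.V1166.Sph (tpow IsCalabiYau)

namespace Pool.Agent.H749.PT

universe v u w

variable {𝕜 : Type w} [Field 𝕜] {C : Type u} [Category.{v} C] [Preadditive C] [Linear 𝕜 C]
  [HasShift C ℤ]
variable [∀ n : ℤ, (shiftFunctor C n).Additive] [∀ n : ℤ, (shiftFunctor C n).Linear 𝕜]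
  {n : ℕ} {k : ℤ} {P : C} {t : ShiftedHom P P k}

theorem IsPObj.endo (hP : IsPObj 𝕜 n k P t) (f : End P) :
    ∃ (c : 𝕜) (ν : End P), f = c • 1 + ν ∧ IsNilpotent ν ∧ (k ≠ 0 → ν = 0) ∧
      ∀ (E : C) (m m' : ℤ) (v : ShiftedHom P E m) (h : m + k = m'), t.comp v h = 0 →
        End.asHom ν ≫ v = 0 := by
  obtain ⟨c, hc⟩ := hP.span 0 (ShiftedHom.mk₀ 0 rfl (End.asHom f))
  have hinj : ∀ f g : P ⟶ P, ShiftedHom.mk₀ (0 : ℤ) rfl f = ShiftedHom.mk₀ (0 : ℤ) rfl g → f = g :=
    fun f g h => (ShiftedHom.homEquiv (0 : ℤ) rfl).injective h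
  by_cases hk : k = 0
  · subst hk
    let τ : End P := (ShiftedHom.homEquiv (0 : ℤ) rfl).symm t
    have hτ : ShiftedHom.mk₀ (0 : ℤ) rfl (End.asHom τ) = t :=
      (ShiftedHom.homEquiv (0 : ℤ) rfl).apply_symm_apply t
    have hpow : ∀ (j : ℕ) (i : ℤ) (h : (j : ℤ) * 0 = i), tpow t j i h =
        ShiftedHom.mk₀ i (by rw [← h]; simp) (End.asHom (τ ^ j)) := by
      intro j
      induction j with
      | zero => intro i h; rfl
      | succ j ih =>
        intro i h
        rw [tpow_succ, ih, ← hτ]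
        rw [ShiftedHom.mk₀_comp_mk₀ _ _ _ (by simp) rfl]
        congr 1
        rw [pow_succ']
        rfl
    have key : ∀ S : Finset {j : Fin (n + 1) // ((j : ℕ) : ℤ) * 0 = 0},
        ∃ (a : 𝕜) (g : End P), ∑ j ∈ S, c j • tpow t (j.1 : ℕ) 0 j.2 =
          ShiftedHom.mk₀ (0 : ℤ) rfl (End.asHom (a • 1 + τ * g)) ∧ Commute τ g := by
      classical
      intro S
      induction S using Finset.induction_on with
      | empty => exact ⟨0, 0, by simp [End.asHom], Commute.zero_right _⟩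
      | insert x S hx ih =>
        obtain ⟨a, g, h1, h2⟩ := ih
        rw [Finset.sum_insert hx, h1, hpow]
        rcases Nat.eq_zero_or_pos (x.1 : ℕ) with h0 | h0
        · refine ⟨c x + a, g, ?_, h2⟩
          rw [h0, pow_zero, ← ShiftedHom.mk₀_smul, ← ShiftedHom.mk₀_add]
          congr 1
          change c x • (1 : End P) + (a • 1 + τ * g) = (c x + a) • 1 + τ * g
          rw [add_smul, add_assoc]
        · refine ⟨a, c x • τ ^ ((x.1 : ℕ) - 1) + g, ?_,
            ((Commute.refl τ).pow_right _ |>.smul_right _).add_right h2⟩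
          rw [← ShiftedHom.mk₀_smul, ← ShiftedHom.mk₀_add]
          congr 1
          change c x • τ ^ (x.1 : ℕ) + (a • 1 + τ * g) =
            a • 1 + τ * (c x • τ ^ ((x.1 : ℕ) - 1) + g)
          rw [mul_add, mul_smul_comm, ← pow_succ', Nat.sub_add_cancel h0]
          abel
    obtain ⟨a, g, h1, h2⟩ := key Finset.univ
    have hnil : IsNilpotent τ := by
      refine ⟨n + 1, ?_⟩
      have h3 := hP.pow_eq_zero
      rw [hpow] at h3
      have h4 : ((n + 1 : ℕ) : ℤ) * 0 = 0 := by simp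
      apply (ShiftedHom.homEquiv (((n + 1 : ℕ) : ℤ) * 0) h4).injective
      change ShiftedHom.mk₀ _ _ (End.asHom (τ ^ (n + 1))) = ShiftedHom.mk₀ _ _ 0
      rw [h3, ShiftedHom.mk₀_zero]
    refine ⟨a, τ * g, hinj _ _ (hc.trans h1), h2.isNilpotent_mul_right hnil,
      fun h => absurd rfl h, ?_⟩
    intro E m m' v h hv
    obtain rfl : m = m' := by omega
    rw [← hτ, ShiftedHom.mk₀_comp] at hv
    change (End.asHom g ≫ End.asHom τ) ≫ v = 0
    rw [Category.assoc, hv, Limits.comp_zero]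
  · refine ⟨c ⟨0, by simp⟩, 0, ?_, IsNilpotent.zero, fun _ => rfl, fun E m m' v h _ => ?_⟩
    · apply hinj
      rw [hc, Finset.sum_eq_single (⟨0, by simp⟩ : {j : Fin (n + 1) // ((j : ℕ) : ℤ) * k = 0})]
      · have h1 : tpow t ((0 : Fin (n + 1)) : ℕ) 0 (by simp) = one P 0 rfl := rfl
        rw [add_zero]
        change c _ • tpow t ((0 : Fin (n + 1)) : ℕ) 0 (by simp) =
          ShiftedHom.mk₀ 0 rfl (c _ • 𝟙 P)
        rw [h1, ShiftedHom.mk₀_smul]
        rfl
      · intro b _ hb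
        exfalso
        apply hb
        have h2 : ((b.1 : ℕ) : ℤ) = 0 := (mul_eq_zero.1 b.2).resolve_right hk
        apply Subtype.ext
        apply Fin.ext
        have h3 : (b.1 : ℕ) = 0 := by omega
        rw [h3]
        rfl
      · intro h
        exact absurd (Finset.mem_univ _) h
    · change (0 : P ⟶ P) ≫ v = 0
      rw [Limits.zero_comp]

theorem IsPObj.unit_or (hP : IsPObj 𝕜 n k P t) (f : End P) :
    IsUnit f ∨ (IsNilpotent f ∧ (k ≠ 0 → f = 0) ∧
      ∀ (E : C) (m m' : ℤ) (v : ShiftedHom P E m) (h : m + k = m'), t.comp v h = 0 →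
        End.asHom f ≫ v = 0) := by
  obtain ⟨c, ν, rfl, h1, h2, h3⟩ := hP.endo f
  by_cases hc : c = 0
  · right
    subst hc
    rw [zero_smul, zero_add]
    exact ⟨h1, h2, h3⟩
  · left
    have hu : IsUnit (c • (1 : End P)) := by
      refine ⟨⟨c • 1, c⁻¹ • 1, ?_, ?_⟩, rfl⟩
      · rw [smul_mul_smul_comm, mul_inv_cancel₀ hc, one_smul, mul_one]
      · rw [smul_mul_smul_comm, inv_mul_cancel₀ hc, one_smul, mul_one]
    exact h1.isUnit_add_left_of_commute hu (((Commute.one_right ν).smul_right c))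

theorem IsPObj.idem (hP : IsPObj 𝕜 n k P t) (f : End P) (hf : f * f = f) : f = 0 ∨ f = 1 := by
  rcases hP.unit_or f with h | ⟨⟨m, hm⟩, -⟩
  · right
    exact (h.mul_right_inj).1 (by rw [hf, mul_one])
  · left
    have h1 : ∀ m : ℕ, f ^ (m + 1) = f := by
      intro m
      induction m with
      | zero => simp
      | succ m ih => rw [pow_succ, ih, hf]
    rw [← h1 m, pow_succ, hm, zero_mul]

/-- Compositions `P ⟶ P' ⟶ P` of total degree zero are not invertible if no shift of `P'` is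
isomorphic to `P`. -/
theorem IsPObj.non_unit (hP : IsPObj 𝕜 n k P t) {n' : ℕ} {k' : ℤ} {P' : C}
    {t' : ShiftedHom P' P' k'} (hP' : IsPObj 𝕜 n' k' P' t')
    (hiso : ∀ m : ℤ, IsEmpty (P ≅ P'⟦m⟧)) {a b : ℤ} (g : ShiftedHom P P' a)
    (f : ShiftedHom P' P b) (hab : b + a = 0) :
    (k ≠ 0 → g.comp f hab = 0) ∧ ∀ (E : C) (m m' : ℤ) (v : ShiftedHom P E m) (h : m + k = m'),
      t.comp v h = 0 → (g.comp f hab).comp v (add_zero m) = 0 := by
  let φ : P ⟶ P := (ShiftedHom.homEquiv (0 : ℤ) rfl).symm (g.comp f hab)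
  have hφ : ShiftedHom.mk₀ (0 : ℤ) rfl φ = g.comp f hab :=
    (ShiftedHom.homEquiv (0 : ℤ) rfl).apply_symm_apply _
  rcases hP.unit_or (End.of φ) with h | ⟨-, h1, h2⟩
  · exfalso
    obtain ⟨ψ, hψ1, hψ2⟩ : ∃ ψ : P ⟶ P, φ ≫ ψ = 𝟙 P ∧ ψ ≫ φ = 𝟙 P := by
      obtain ⟨u, hu⟩ := h
      refine ⟨End.asHom (↑u⁻¹ : End P), ?_, ?_⟩
      · have h3 := u.inv_mul
        rw [hu] at h3
        exact h3
      · have h3 := u.mul_inv
        rw [hu] at h3
        exact h3
    let r : P'⟦a⟧ ⟶ P := f⟦a⟧' ≫ (shiftFunctorAdd' C b a 0 hab).inv.app P ≫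
      (shiftFunctorZero' C 0 rfl).hom.app P ≫ ψ
    have hgr : g ≫ r = 𝟙 P := by
      have h3 : g ≫ f⟦a⟧' ≫ (shiftFunctorAdd' C b a 0 hab).inv.app P ≫
          (shiftFunctorZero' C 0 rfl).hom.app P = φ := by
        change _ = (g.comp f hab) ≫ (shiftFunctorZero' C 0 rfl).hom.app P
        rw [ShiftedHom.comp]
        simp only [Category.assoc]
      change g ≫ f⟦a⟧' ≫ (shiftFunctorAdd' C b a 0 hab).inv.app P ≫
        (shiftFunctorZero' C 0 rfl).hom.app P ≫ ψ = 𝟙 P
      rw [← hψ1, ← h3]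
      simp only [Category.assoc]
    obtain ⟨e₀, he₀⟩ := (shiftFunctor C a).map_surjective (r ≫ g)
    have he1 : End.of e₀ * End.of e₀ = End.of e₀ := by
      change e₀ ≫ e₀ = e₀
      apply (shiftFunctor C a).map_injective
      rw [Functor.map_comp, he₀, Category.assoc, ← Category.assoc g, hgr, Category.id_comp]
    rcases hP'.idem _ he1 with h3 | h3
    · have h4 : r ≫ g = 0 := by
        rw [← he₀]
        change (shiftFunctor C a).map (End.asHom (End.of e₀)) = 0
        rw [h3]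
        exact Functor.map_zero _ _ _
      have h5 : g = 0 := by
        rw [← Category.comp_id g] 
        have h6 : g = (g ≫ r) ≫ g := by rw [hgr, Category.id_comp]
        rw [Category.comp_id, h6, Category.assoc, h4, Limits.comp_zero]
      apply hP.one_ne_zero' 0 rfl
      rw [one, ← hgr, h5, Limits.zero_comp, ShiftedHom.mk₀_zero]
    · have h4 : r ≫ g = 𝟙 _ := by
        rw [← he₀]
        change (shiftFunctor C a).map (End.asHom (End.of e₀)) = 𝟙 _
        rw [h3]
        exact CategoryTheory.Functor.map_id _ _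
      exact (hiso a).false ⟨g, r, hgr, h4⟩
  · refine ⟨fun hk => ?_, fun E m m' v h hv => ?_⟩
    · rw [← hφ]
      have h3 : φ = 0 := h1 hk
      rw [h3, ShiftedHom.mk₀_zero]
    · rw [← hφ]
      rw [ShiftedHom.mk₀_comp (0 : ℤ) rfl φ v]
      exact h2 E m m' v h hv

end Pool.Agent.H749.PT
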