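import Pool.Agent.H749.PT.Self

set_option autoImplicit false
set_option linter.unusedSectionVars false
set_option linter.unusedVariables false

open CategoryTheory CategoryTheory.Limits CategoryTheory.Pretriangulated
open Pool.Agent.V1166.Sph (tpow IsCalabiYau)

namespace Pool.Agent.H749.PT

universe v u w

section map

variable {C : Type u} [Category.{v} C] [Preadditive C] [HasShift C ℤ]
  [∀ n : ℤ, (shiftFunctor C n).Additive] (T : C ≌ C) [T.functor.CommShift ℤ] {X Y : C} {i : ℤ}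

theorem map_inj {x y : ShiftedHom X Y i} (h : x.map T.functor = y.map T.functor) : x = y := by
  rw [ShiftedHom.map, ShiftedHom.map, cancel_mono] at h
  exact T.functor.map_injective h

theorem map_surj (y : ShiftedHom (T.functor.obj X) (T.functor.obj Y) i) :
    ∃ x : ShiftedHom X Y i, x.map T.functor = y := by
  obtain ⟨x, hx⟩ := T.functor.map_surjective (y ≫ (T.functor.commShiftIso i).inv.app Y)
  refine ⟨x, ?_⟩
  rw [ShiftedHom.map, hx]
  simp

end map

variable (𝕜 : Type w) [Field 𝕜] {C : Type u} [Category.{v} C] [Preadditive C] [Linear 𝕜 C]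
  [HasZeroObject C] [HasShift C ℤ] [∀ n : ℤ, (shiftFunctor C n).Additive] [Pretriangulated C]

/-- The functor `T` is, on objects, the `ℙ`-twist along `P` (with `t` in `Hom(P, P⟦k⟧)`). -/
def IsPTwist {P : C} {k : ℤ} (t : ShiftedHom P P k) (T : C ⥤ C) : Prop :=
  ∀ E : C, Nonempty (PTwistTriangles 𝕜 t E (T.obj E))

variable {𝕜}
variable [∀ n : ℤ, (shiftFunctor C n).Linear 𝕜]
  {n : ℕ} {k : ℤ} {P : C} {t : ShiftedHom P P k} {E F X : C}
variable (T : C ≌ C) [T.functor.CommShift ℤ] [T.functor.Additive] [T.functor.Linear 𝕜]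

theorem map_zero_iff {X Y : C} {i : ℤ} (x : ShiftedHom X Y i) :
    x.map T.functor = 0 ↔ x = 0 := by
  constructor
  · intro h
    exact map_inj T (by rw [h, ShiftedHom.map_zero])
  · rintro rfl
    exact ShiftedHom.map_zero _

variable {T}

theorem self_iso (hP : IsPObj 𝕜 n k P t) (hT : IsPTwist 𝕜 t T.functor) {s s' : ℤ}
    (hs : s = 2 - (n + 1) * k) (hs' : s + s' = 0) :
    ∃ (u : ShiftedHom P (T.functor.obj P) s') (w : ShiftedHom (T.functor.obj P) P s),
      u.comp w hs' = one P 0 rfl ∧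
      w.comp u (by omega : s' + s = 0) = one (T.functor.obj P) 0 rfl := by
  obtain ⟨D⟩ := hT P
  obtain ⟨u, w, huw⟩ := D.self hP hs hs'
  refine ⟨u, w, huw, ?_⟩
  obtain ⟨φ, hφ⟩ := map_surj T (w.comp u (by omega : s' + s = 0))
  let f : P ⟶ P := (ShiftedHom.homEquiv (0 : ℤ) rfl).symm φ
  have hf : ShiftedHom.mk₀ (0 : ℤ) rfl f = φ :=
    (ShiftedHom.homEquiv (0 : ℤ) rfl).apply_symm_apply _
  have h1 : (w.comp u (by omega : s' + s = 0)).comp (w.comp u (by omega : s' + s = 0))
      (by omega : (0 : ℤ) + 0 = 0) = w.comp u (by omega : s' + s = 0) := by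
    rw [ShiftedHom.comp_assoc (a₂₃ := s') (h₂₃ := by omega) (h := by omega),
      ← ShiftedHom.comp_assoc (a₁₂ := 0) (h₁₂ := hs') (h := by omega), huw]
    congr 1
    exact ShiftedHom.mk₀_id_comp _ rfl _
  have h2 : φ.comp φ (by omega : (0 : ℤ) + 0 = 0) = φ := by
    apply map_inj T
    rw [ShiftedHom.map_comp, hφ, h1]
  have h3 : End.of f * End.of f = End.of f := by
    change f ≫ f = f
    apply (ShiftedHom.homEquiv (0 : ℤ) rfl).injective
    change ShiftedHom.mk₀ (0 : ℤ) rfl (f ≫ f) = ShiftedHom.mk₀ (0 : ℤ) rfl f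
    rw [hf, ← ShiftedHom.mk₀_comp_mk₀ f f (by omega : (0 : ℤ) + 0 = 0) rfl rfl, hf, h2]
  rcases hP.idem _ h3 with h4 | h4
  · exfalso
    have h5 : φ = 0 := by
      rw [← hf]
      have h6 : f = 0 := h4
      rw [h6, ShiftedHom.mk₀_zero]
    have h6 : w.comp u (by omega : s' + s = 0) = 0 := by rw [← hφ, h5, ShiftedHom.map_zero]
    have h7 : u = 0 := by
      have h8 : (u.comp w hs').comp u (by omega : s' + 0 = s') = u := by
        rw [huw]
        exact ShiftedHom.mk₀_id_comp _ rfl _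
      rw [← h8, ShiftedHom.comp_assoc (a₂₃ := 0) (h₂₃ := by omega) (h := by omega), h6,
        ShiftedHom.comp_zero]
    apply hP.one_ne_zero' 0 rfl
    rw [← huw, h7, ShiftedHom.zero_comp]
  · rw [← hφ, ← hf]
    have h6 : f = 𝟙 P := h4
    rw [h6, ShiftedHom.map_mk₀, CategoryTheory.Functor.map_id]
    rfl

/-- `Hom^i(P, E)` and `Hom^(i-s)(P, T E)` are isomorphic -/
theorem exists_equiv (hP : IsPObj 𝕜 n k P t) (hT : IsPTwist 𝕜 t T.functor) {s : ℤ}
    (hs : s = 2 - (n + 1) * k) (E : C) {i j : ℤ} (hij : j + s = i) :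
    Nonempty (ShiftedHom P E i ≃ₗ[𝕜] ShiftedHom P (T.functor.obj E) j) := by
  obtain ⟨u, w, huw, hwu⟩ := self_iso hP hT (s := s) (s' := -s) hs (by omega)
  refine ⟨LinearEquiv.ofBijective
    { toFun := fun x => u.comp (x.map T.functor) (by omega)
      map_add' := fun x y => by rw [ShiftedHom.map_add, ShiftedHom.comp_add]
      map_smul' := fun c x => by rw [ShiftedHom.map_smul, ShiftedHom.comp_smul]; rfl } ⟨?_, ?_⟩⟩
  · intro x y hxy
    change u.comp (x.map T.functor) _ = u.comp (y.map T.functor) _ at hxy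
    apply map_inj T
    have h1 : ∀ z : ShiftedHom (T.functor.obj P) (T.functor.obj E) i,
        w.comp (u.comp z (by omega : i + -s = j)) (by omega : j + s = i) = z := by
      intro z
      rw [← ShiftedHom.comp_assoc (a₁₂ := 0) (h₁₂ := by omega) (h := by omega), hwu]
      exact ShiftedHom.mk₀_id_comp _ rfl _
    rw [← h1 (x.map T.functor), ← h1 (y.map T.functor), hxy]
  · intro y
    obtain ⟨x, hx⟩ := map_surj T (w.comp y hij)
    refine ⟨x, ?_⟩
    change u.comp (x.map T.functor) _ = y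
    rw [hx, ← ShiftedHom.comp_assoc (a₁₂ := 0) (h₁₂ := by omega) (h := by omega), huw]
    exact ShiftedHom.mk₀_id_comp _ rfl _

theorem low_shift (hP : IsPObj 𝕜 n k P t) (hT : IsPTwist 𝕜 t T.functor) {s : ℤ}
    (hs : s = 2 - (n + 1) * k) (E : C) {l l' : ℤ} (hl : l' + s = l) :
    Low P (T.functor.obj E) l' ↔ Low P E l := by
  have h0 : ∀ i j : ℤ, j + s = i → ((∀ x : ShiftedHom P E i, x = 0) ↔
      ∀ x : ShiftedHom P (T.functor.obj E) j, x = 0) := by
    intro i j hij
    obtain ⟨e⟩ := exists_equiv hP hT hs E hij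
    constructor
    · intro h x
      have := h (e.symm x)
      rwa [LinearEquiv.map_eq_zero_iff] at this
    · intro h x
      have := h (e x)
      rwa [LinearEquiv.map_eq_zero_iff] at this
  constructor
  · rintro ⟨⟨x, hx⟩, h2⟩
    refine ⟨?_, fun i hi => (h0 i (i - s) (by omega)).2 (h2 _ (by omega))⟩
    by_contra hcon
    push Not at hcon
    exact hx ((h0 l l' hl).1 hcon x)
  · rintro ⟨⟨x, hx⟩, h2⟩
    refine ⟨?_, fun i hi => (h0 (i + s) i rfl).1 (h2 _ (by omega))⟩
    by_contra hcon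
    push Not at hcon
    exact hx ((h0 l l' hl).2 hcon x)

end Pool.Agent.H749.PT
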