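import Pool.Agent.H749.PT.Pair

set_option autoImplicit false
set_option linter.unusedSectionVars false
set_option linter.unusedVariables false

open CategoryTheory CategoryTheory.Limits CategoryTheory.Pretriangulated
open Pool.Agent.V1166.Sph (tpow IsCalabiYau)

namespace Pool.Agent.H749.PT

universe v u w

variable {𝕜 : Type w} [Field 𝕜] {C : Type u} [Category.{v} C] [Preadditive C] [Linear 𝕜 C]
  [HasZeroObject C] [HasShift C ℤ] [∀ n : ℤ, (shiftFunctor C n).Additive] [Pretriangulated C]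
variable [∀ n : ℤ, (shiftFunctor C n).Linear 𝕜]

section

variable {A Y D : C} {f : A ⟶ Y} {g : Y ⟶ D} {h : D ⟶ A⟦(1 : ℤ)⟧}

theorem FinHom.third (hT : Triangle.mk f g h ∈ distTriang C) {X : C} (hA : FinHom 𝕜 X A)
    (hY : FinHom 𝕜 X Y) : FinHom 𝕜 X D := by
  refine ⟨fun i => ?_, ?_⟩
  · let d : ShiftedHom X D i →ₗ[𝕜] ShiftedHom X A (1 + i) :=
      { toFun := fun z => c1 h z (1 + i) rfl
        map_add' := fun z z' => by rw [c1, c1, c1, ShiftedHom.add_comp]
        map_smul' := fun c z => by rw [c1, c1, ShiftedHom.smul_comp]; rfl }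
    have h1 := hA.1 (1 + i)
    have h2 := hY.1 i
    refine Module.Finite.of_exact (f := Linear.rightComp 𝕜 X (g⟦i⟧')) (g := d.rangeRestrict)
      ?_ (LinearMap.surjective_rangeRestrict d)
    intro z
    constructor
    · intro hz
      have hz' : c1 h z (1 + i) rfl = 0 := congrArg Subtype.val hz
      obtain ⟨y, hy⟩ := exact3 hT z rfl hz'
      exact ⟨y, hy⟩
    · rintro ⟨y, rfl⟩
      apply Subtype.ext
      exact zero23 hT y rfl
  · refine (hY.2.union (hA.2.image (fun i => i - 1))).subset fun i hi => ?_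
    obtain ⟨x, hx⟩ := hi
    by_cases h1 : c1 h x (1 + i) rfl = 0
    · left
      obtain ⟨y, hy⟩ := exact3 hT x rfl h1
      refine ⟨y, ?_⟩
      rintro rfl
      apply hx
      rw [← hy, Limits.zero_comp]
    · right
      exact ⟨1 + i, ⟨_, h1⟩, by simp⟩

theorem FinHom.second (hT : Triangle.mk f g h ∈ distTriang C) {X : C} (hA : FinHom 𝕜 X A)
    (hD : FinHom 𝕜 X D) : FinHom 𝕜 X Y := by
  refine ⟨fun i => ?_, ?_⟩
  · have h1 := hA.1 i
    have h2 := hD.1 i
    refine Module.Finite.of_exact (f := Linear.rightComp 𝕜 X (f⟦i⟧'))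
      (g := (Linear.rightComp 𝕜 X (g⟦i⟧')).rangeRestrict)
      ?_ (LinearMap.surjective_rangeRestrict _)
    intro z
    constructor
    · intro hz
      have hz' : z ≫ g⟦i⟧' = 0 := congrArg Subtype.val hz
      obtain ⟨y, hy⟩ := exact2 hT z hz'
      exact ⟨y, hy⟩
    · rintro ⟨y, rfl⟩
      apply Subtype.ext
      exact zero12 hT y
  · refine (hA.2.union hD.2).subset fun i hi => ?_
    obtain ⟨x, hx⟩ := hi
    by_cases h1 : x ≫ g⟦i⟧' = 0
    · left
      obtain ⟨y, hy⟩ := exact2 hT x h1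
      refine ⟨y, ?_⟩
      rintro rfl
      apply hx
      rw [← hy, Limits.zero_comp]
    · right
      exact ⟨_, h1⟩

end

theorem IsTensor.finHom {P E : C} {r : ℤ} {M : C}
    {ι : ∀ i j : ℤ, i + r = j → (ShiftedHom P E i →ₗ[𝕜] ShiftedHom P M j)}
    (hM : IsTensor 𝕜 P E r M ι) (hfin : FinHom 𝕜 P E) {X : C} (hX : FinHom 𝕜 X P) :
    FinHom 𝕜 X M := by
  obtain ⟨A, _, deg, ρ, hb, hj⟩ := hM.joint hfin
  refine ⟨fun d => ?_, ?_⟩
  · let L : ShiftedHom X M d →ₗ[𝕜] ∀ a : A, ShiftedHom X P (-(deg a + r) + d) :=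
      LinearMap.pi fun a =>
        { toFun := fun m => m.comp (ρ a) rfl
          map_add' := fun z z' => by rw [ShiftedHom.add_comp]
          map_smul' := fun c z => by rw [ShiftedHom.smul_comp]; rfl }
    have h1 : ∀ a : A, Module.Finite 𝕜 (ShiftedHom X P (-(deg a + r) + d)) := fun a => hX.1 _
    refine Module.Finite.of_injective L ?_
    rw [← LinearMap.ker_eq_bot, LinearMap.ker_eq_bot']
    intro m hm
    exact hj m fun a => congrFun hm a
  · refine (Set.finite_iUnion (fun a : A => hX.2.image (fun i => i + (deg a + r)))).subset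
      fun d hd => ?_
    obtain ⟨m, hm⟩ := hd
    by_contra hcon
    rw [Set.mem_iUnion] at hcon
    push Not at hcon
    refine hm (hj m fun a => ?_)
    by_contra hne
    exact hcon a ⟨_, ⟨_, hne⟩, by ring⟩

variable {n : ℕ} {k : ℤ} {P : C} {t : ShiftedHom P P k} {E F X : C}

theorem PTwistTriangles.finHom_G (D : PTwistTriangles 𝕜 t E F) (hfin : FinHom 𝕜 P E)
    (hX : FinHom 𝕜 X P) : FinHom 𝕜 X D.G :=
  FinHom.third D.dist (D.tensor'.finHom hfin hX) (D.tensor.finHom hfin hX)

theorem PTwistTriangles.finHom_iff (D : PTwistTriangles 𝕜 t E F) (hfin : FinHom 𝕜 P E)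
    (hX : FinHom 𝕜 X P) : FinHom 𝕜 X F ↔ FinHom 𝕜 X E :=
  ⟨fun h => FinHom.second D.dist' (D.finHom_G hfin hX) h,
    fun h => FinHom.third D.dist' (D.finHom_G hfin hX) h⟩

/-- an object orthogonal to `P` is isomorphic to its twist -/
theorem PTwistTriangles.iso_of_zero (D : PTwistTriangles 𝕜 t E F)
    (h : ∀ i : ℤ, ∀ x : ShiftedHom P E i, x = 0) : Nonempty (E ≅ F) := by
  have hM : IsZero D.M := by
    rw [IsZero.iff_id_eq_zero]
    refine D.tensor.hom_ext fun i j hij x => ?_
    rw [h i x]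
    simp
  have hM' : IsZero D.M' := by
    rw [IsZero.iff_id_eq_zero]
    refine D.tensor'.hom_ext fun i j hij x => ?_
    rw [h i x]
    simp
  have hp : IsIso D.p := (Triangle.isZero₁_iff_isIso₂ _ D.dist).1 hM'
  have hG : IsZero D.G := hM.of_iso (asIso D.p).symm
  have hq : IsIso D.q := (Triangle.isZero₁_iff_isIso₂ _ D.dist').1 hG
  exact ⟨asIso D.q⟩

variable {T : C ≌ C} [T.functor.CommShift ℤ] [T.functor.Additive]
  [T.functor.Linear 𝕜]

theorem finHom_self (hP : IsPObj 𝕜 n k P t) (hT : IsPTwist 𝕜 t T.functor) (E : C) :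
    FinHom 𝕜 P (T.functor.obj E) ↔ FinHom 𝕜 P E := by
  have hs : 2 - n * k - k = 2 - (n + 1) * k := by ring
  constructor
  · rintro ⟨h1, h2⟩
    refine ⟨fun i => ?_, ?_⟩
    · obtain ⟨e⟩ := exists_equiv hP hT hs E (i := i) (j := i - (2 - n * k - k)) (by ring)
      have := h1 (i - (2 - n * k - k))
      exact Module.Finite.equiv e.symm
    · refine (h2.image (fun i => i + (2 - n * k - k))).subset fun i hi => ?_
      obtain ⟨x, hx⟩ := hi
      obtain ⟨e⟩ := exists_equiv hP hT hs E (i := i) (j := i - (2 - n * k - k)) (by ring)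
      exact ⟨i - (2 - n * k - k), ⟨e x, by simpa using hx⟩, by ring⟩
  · rintro ⟨h1, h2⟩
    refine ⟨fun i => ?_, ?_⟩
    · obtain ⟨e⟩ := exists_equiv hP hT hs E (i := i + (2 - n * k - k)) (j := i) (by ring)
      have := h1 (i + (2 - n * k - k))
      exact Module.Finite.equiv e
    · refine (h2.image (fun i => i - (2 - n * k - k))).subset fun i hi => ?_
      obtain ⟨x, hx⟩ := hi
      obtain ⟨e⟩ := exists_equiv hP hT hs E (i := i + (2 - n * k - k)) (j := i) (by ring)
      exact ⟨i + (2 - n * k - k), ⟨e.symm x, by simpa using hx⟩, by ring⟩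

theorem zero_self (hP : IsPObj 𝕜 n k P t) (hT : IsPTwist 𝕜 t T.functor) (E : C) :
    (∀ i : ℤ, ∀ x : ShiftedHom P (T.functor.obj E) i, x = 0) ↔
      ∀ i : ℤ, ∀ x : ShiftedHom P E i, x = 0 := by
  have hs : 2 - n * k - k = 2 - (n + 1) * k := by ring
  constructor
  · intro h i x
    obtain ⟨e⟩ := exists_equiv hP hT hs E (i := i) (j := i - (2 - n * k - k)) (by ring)
    have := h _ (e x)
    rwa [LinearEquiv.map_eq_zero_iff] at this
  · intro h i x
    obtain ⟨e⟩ := exists_equiv hP hT hs E (i := i + (2 - n * k - k)) (j := i) (by ring)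
    have := h _ (e.symm x)
    rwa [LinearEquiv.map_eq_zero_iff] at this

end Pool.Agent.H749.PT
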