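import Mathlib

set_option autoImplicit false
set_option linter.unusedSectionVars false
set_option linter.unusedVariables false

open CategoryTheory CategoryTheory.Limits CategoryTheory.Pretriangulated

namespace Pool.Agent.H749.PT

universe v u w

variable {C : Type u} [Category.{v} C] [Preadditive C] [HasZeroObject C] [HasShift C ℤ]
  [∀ n : ℤ, (shiftFunctor C n).Additive] [Pretriangulated C]

/-- composition of a graded composition with a morphism of degree zero -/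
theorem comp_map0 {X Y Z W : C} {a b c : ℤ} (f : ShiftedHom X Y a) (g : ShiftedHom Y Z b)
    (h : b + a = c) (u : Z ⟶ W) :
    (ShiftedHom.comp f g h) ≫ u⟦c⟧' = ShiftedHom.comp (Z := W) f (g ≫ u⟦b⟧') h := by
  have h1 := (shiftFunctorAdd' C b a c h).inv.naturality u
  rw [Functor.comp_map] at h1
  rw [ShiftedHom.comp, ShiftedHom.comp, Functor.map_comp, Category.assoc, Category.assoc,
    Category.assoc, h1]

theorem map0_comp {X Y Z W : C} {a b c : ℤ} (u : X ⟶ Y) (f : ShiftedHom Y Z b)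
    (g : ShiftedHom Z W a) (h : a + b = c) :
    ShiftedHom.comp (X := X) (u ≫ f) g h = u ≫ ShiftedHom.comp f g h := by
  rw [ShiftedHom.comp, ShiftedHom.comp, Category.assoc]

section exact

variable {A Y D : C} {f : A ⟶ Y} {g : Y ⟶ D} {h : D ⟶ A⟦(1 : ℤ)⟧}

theorem exact2 (hT : Triangle.mk f g h ∈ distTriang C) {X : C} {d : ℤ} (x : ShiftedHom X Y d)
    (hx : x ≫ g⟦d⟧' = 0) : ∃ y : ShiftedHom X A d, y ≫ f⟦d⟧' = x := by
  have hT' := Triangle.shift_distinguished _ hT d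
  obtain ⟨y, hy⟩ : ∃ y : X ⟶ A⟦d⟧, x = y ≫ (d.negOnePow • f⟦d⟧') :=
    Triangle.coyoneda_exact₂ _ hT' x (by
      change x ≫ (d.negOnePow • g⟦d⟧') = 0
      rw [Linear.comp_units_smul, hx, smul_zero])
  refine ⟨d.negOnePow • y, ?_⟩
  rw [hy, Linear.comp_units_smul, Linear.units_smul_comp]

theorem zero12 (hT : Triangle.mk f g h ∈ distTriang C) {X : C} {d : ℤ}
    (x : ShiftedHom X A d) : (x ≫ f⟦d⟧') ≫ g⟦d⟧' = 0 := by
  have h1 : f ≫ g = 0 := comp_distTriang_mor_zero₁₂ _ hT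
  rw [Category.assoc, ← Functor.map_comp, h1, Functor.map_zero, Limits.comp_zero]

/-- composition with a morphism of degree one -/
noncomputable def c1 (h : D ⟶ A⟦(1 : ℤ)⟧) {X : C} {d : ℤ} (z : ShiftedHom X D d) (d' : ℤ)
    (hd : 1 + d = d') : ShiftedHom X A d' :=
  ShiftedHom.comp (b := (1 : ℤ)) z h hd

theorem c1_eq_zero_iff (h : D ⟶ A⟦(1 : ℤ)⟧) {X : C} {d : ℤ} (z : ShiftedHom X D d) (d' : ℤ)
    (hd : 1 + d = d') : c1 h z d' hd = 0 ↔ z ≫ h⟦d⟧' = 0 := by
  constructor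
  · intro h1
    rw [c1, ShiftedHom.comp, ← Category.assoc] at h1
    have h2 : (z ≫ h⟦d⟧') ≫ (shiftFunctorAdd' C 1 d d' hd).inv.app A ≫
        (shiftFunctorAdd' C 1 d d' hd).hom.app A = 0 := by
      rw [← Category.assoc, h1, Limits.zero_comp]
    simpa using h2
  · intro h1
    rw [c1, ShiftedHom.comp, ← Category.assoc, h1, Limits.zero_comp]

theorem exact3 (hT : Triangle.mk f g h ∈ distTriang C) {X : C} {d d' : ℤ}
    (z : ShiftedHom X D d) (hd : 1 + d = d') (hz : c1 h z d' hd = 0) :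
    ∃ y : ShiftedHom X Y d, y ≫ g⟦d⟧' = z :=
  exact2 (rot_of_distTriang _ hT) z ((c1_eq_zero_iff h z d' hd).1 hz)

theorem zero23 (hT : Triangle.mk f g h ∈ distTriang C) {X : C} {d d' : ℤ}
    (y : ShiftedHom X Y d) (hd : 1 + d = d') :
    c1 (X := X) h (y ≫ g⟦d⟧') d' hd = 0 :=
  (c1_eq_zero_iff h _ d' hd).2 (zero12 (rot_of_distTriang _ hT) y)

theorem exact1 (hT : Triangle.mk f g h ∈ distTriang C) {X : C} {d d' : ℤ}
    (w : ShiftedHom X A d') (hd : 1 + d = d') (hw : w ≫ f⟦d'⟧' = 0) :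
    ∃ z : ShiftedHom X D d, c1 h z d' hd = w := by
  have hT2 := rot_of_distTriang _ (rot_of_distTriang _ hT)
  obtain ⟨z, hz⟩ : ∃ z : ShiftedHom X D d, z ≫ h⟦d⟧' =
      w ≫ (shiftFunctorAdd' C 1 d d' hd).hom.app A := by
    refine exact2 hT2 (w ≫ (shiftFunctorAdd' C 1 d d' hd).hom.app A) ?_
    change (w ≫ (shiftFunctorAdd' C 1 d d' hd).hom.app A) ≫ (-f⟦(1 : ℤ)⟧')⟦d⟧' = 0
    rw [Functor.map_neg, Preadditive.comp_neg, Category.assoc]
    have h1 := (shiftFunctorAdd' C 1 d d' hd).hom.naturality f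
    rw [Functor.comp_map] at h1
    rw [← h1, ← Category.assoc, hw, Limits.zero_comp, neg_zero]
  refine ⟨z, ?_⟩
  rw [c1, ShiftedHom.comp, ← Category.assoc, hz]
  simp

theorem zero31 (hT : Triangle.mk f g h ∈ distTriang C) {X : C} {d d' : ℤ}
    (z : ShiftedHom X D d) (hd : 1 + d = d') : (c1 h z d' hd) ≫ f⟦d'⟧' = 0 := by
  have h1 : h ≫ f⟦(1 : ℤ)⟧' = 0 := comp_distTriang_mor_zero₃₁ _ hT
  rw [c1, comp_map0, h1]
  exact ShiftedHom.comp_zero _ _ _

/-- `c1` is compatible with composition on the left -/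
theorem comp_c1 (h : D ⟶ A⟦(1 : ℤ)⟧) {X X' : C} {a d d' e e' : ℤ} (g : ShiftedHom X' X a)
    (z : ShiftedHom X D d) (hd : 1 + d = d') (he : d + a = e) (he' : 1 + e = e')
    (h' : d' + a = e') :
    c1 h (g.comp z he) e' he' = g.comp (c1 h z d' hd) h' := by
  rw [c1, c1]
  subst hd he
  exact ShiftedHom.comp_assoc g z (γ := h) (a₃ := (1 : ℤ)) (h₁₂ := rfl) (h₂₃ := rfl)
    (h := by omega)

end exact

end Pool.Agent.H749.PT
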