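import Pool.Agent.H749.PT.Main

set_option autoImplicit false
set_option linter.unusedSectionVars false
set_option linter.unusedVariables false

open CategoryTheory CategoryTheory.Limits CategoryTheory.Pretriangulated
open Pool.Agent.V1166.Sph (tpow IsCalabiYau)

namespace Pool.Agent.H749.PT

universe v u w

section

variable (C : Type u) [Category.{v} C]

/-- Two autoequivalences are equivalent if their functors are isomorphic. -/
def autSetoid : Setoid (C ≌ C) where
  r T T' := Nonempty (T.functor ≅ T'.functor)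
  iseqv := ⟨fun _ => ⟨Iso.refl _⟩, fun ⟨e⟩ => ⟨e.symm⟩, fun ⟨e⟩ ⟨e'⟩ => ⟨e ≪≫ e'⟩⟩

/-- The isomorphism classes of autoequivalences of `C`. -/
def AutGrp : Type _ := Quotient (autSetoid C)

variable {C}

/-- The isomorphism class of an autoequivalence. -/
def AutGrp.mk (T : C ≌ C) : AutGrp C := Quotient.mk (autSetoid C) T

theorem AutGrp.mk_eq_iff {T T' : C ≌ C} :
    AutGrp.mk T = AutGrp.mk T' ↔ Nonempty (T.functor ≅ T'.functor) :=
  Quotient.eq (r := autSetoid C)

/-- The isomorphism classes of autoequivalences form a group under composition: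
the product of the classes of `T` and `T'` is the class of `T ∘ T'`. -/
instance AutGrp.group : Group (AutGrp C) where
  mul := Quotient.map₂ (fun T T' => T'.trans T) fun T₁ T₂ ⟨e⟩ T₃ T₄ ⟨e'⟩ =>
    ⟨Functor.isoWhiskerRight e' T₁.functor ≪≫ Functor.isoWhiskerLeft T₄.functor e⟩
  one := AutGrp.mk CategoryTheory.Equivalence.refl
  inv := Quotient.map (fun T => T.symm) fun T T' ⟨e⟩ => ⟨Iso.isoInverseOfIsoFunctor e⟩
  mul_assoc := by
    rintro ⟨T₁⟩ ⟨T₂⟩ ⟨T₃⟩
    exact Quotient.sound ⟨Iso.refl _⟩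
  one_mul := by
    rintro ⟨T⟩
    exact Quotient.sound ⟨T.functor.rightUnitor⟩
  mul_one := by
    rintro ⟨T⟩
    exact Quotient.sound ⟨T.functor.leftUnitor⟩
  inv_mul_cancel := by
    rintro ⟨T⟩
    exact Quotient.sound ⟨T.unitIso.symm⟩

/-- the action of an autoequivalence on the isomorphism classes of objects -/
def clPerm : AutGrp C →* Equiv.Perm (Quotient (isIsomorphicSetoid C)) where
  toFun := Quotient.lift (fun T =>
    { toFun := Quotient.map T.functor.obj fun _ _ ⟨e⟩ => ⟨T.functor.mapIso e⟩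
      invFun := Quotient.map T.inverse.obj fun _ _ ⟨e⟩ => ⟨T.inverse.mapIso e⟩
      left_inv := by
        rintro ⟨E⟩
        exact Quotient.sound ⟨(T.unitIso.app E).symm⟩
      right_inv := by
        rintro ⟨E⟩
        exact Quotient.sound ⟨T.counitIso.app E⟩ }) fun T T' ⟨e⟩ => by
    ext x
    induction x using Quotient.inductionOn with
    | h E => exact Quotient.sound ⟨e.app E⟩
  map_one' := by
    ext x
    induction x using Quotient.inductionOn with
    | h E => rfl
  map_mul' := by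
    rintro ⟨T⟩ ⟨T'⟩
    ext x
    induction x using Quotient.inductionOn with
    | h E => rfl

end

section

variable {C : Type u} [Category.{v} C] [HasShift C ℤ]

/-- from isomorphism classes to classes up to shift -/
def toG : Quotient (isIsomorphicSetoid C) → Quotient (gSetoid C) :=
  Quotient.map id fun _ _ ⟨e⟩ => GIso.of_iso e

variable [Preadditive C] [HasZeroObject C]
  [∀ n : ℤ, (shiftFunctor C n).Additive] [Pretriangulated C]

theorem toG_lift {T₁ T₂ : C ≌ C} [T₁.functor.CommShift ℤ] [T₂.functor.CommShift ℤ]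
    (w : FreeGroup (Fin 2)) (x : Quotient (isIsomorphicSetoid C)) :
    toG (clPerm (FreeGroup.lift ![AutGrp.mk T₁, AutGrp.mk T₂] w) x) =
      FreeGroup.lift ![gPerm T₁, gPerm T₂] w (toG x) := by
  induction w using FreeGroup.induction_on generalizing x with
  | C1 => simp
  | of i =>
    rw [FreeGroup.lift_apply_of, FreeGroup.lift_apply_of]
    induction x using Quotient.inductionOn with
    | h E => fin_cases i <;> rfl
  | inv_of i _ =>
    rw [map_inv, map_inv, map_inv, FreeGroup.lift_apply_of, FreeGroup.lift_apply_of]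
    induction x using Quotient.inductionOn with
    | h E => fin_cases i <;> rfl
  | mul v w hv hw =>
    rw [map_mul, map_mul, map_mul, Equiv.Perm.mul_apply, Equiv.Perm.mul_apply, hv, hw]

/-- the class of the shift functor -/
noncomputable def AutGrp.shift (C : Type u) [Category.{v} C] [HasShift C ℤ] (m : ℤ) : AutGrp C :=
  AutGrp.mk (shiftEquiv C m)

theorem lift_ne_shift {T₁ T₂ : C ≌ C} [T₁.functor.CommShift ℤ] [T₂.functor.CommShift ℤ]
    (h : Function.Injective (FreeGroup.lift ![gPerm T₁, gPerm T₂])) (w : FreeGroup (Fin 2))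
    (m : ℤ) (hw : FreeGroup.lift ![AutGrp.mk T₁, AutGrp.mk T₂] w = AutGrp.shift C m) :
    w = 1 := by
  rw [injective_iff_map_eq_one] at h
  apply h
  ext x
  induction x using Quotient.inductionOn with
  | h E =>
    have h1 := toG_lift (T₁ := T₁) (T₂ := T₂) w (Quotient.mk _ E)
    rw [hw] at h1
    refine h1.symm.trans ?_
    exact Quotient.sound (GIso.shift E m)

end

section

variable {C : Type u} [Category.{v} C] [Preadditive C] [HasZeroObject C] [HasShift C ℤ]
  [∀ n : ℤ, (shiftFunctor C n).Additive] [Pretriangulated C]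
variable {𝕜 : Type w} [Field 𝕜] [Linear 𝕜 C] [∀ n : ℤ, (shiftFunctor C n).Linear 𝕜]
  {n : ℕ} {k : ℤ} {P X : C} {t : ShiftedHom P P k}

theorem IsPObj.finHom_self (hP : IsPObj 𝕜 n k P t) : FinHom 𝕜 P P := by
  classical
  refine ⟨fun i => ?_, ?_⟩
  · let L : ({j : Fin (n + 1) // ((j : ℕ) : ℤ) * k = i} → 𝕜) →ₗ[𝕜] ShiftedHom P P i :=
      { toFun := fun c => ∑ j, c j • tpow t (j.1 : ℕ) i j.2
        map_add' := fun c c' => by
          simp only [Pi.add_apply, add_smul, Finset.sum_add_distrib]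
        map_smul' := fun a c => by
          simp only [Pi.smul_apply, smul_eq_mul, mul_smul, Finset.smul_sum, RingHom.id_apply] }
    exact Module.Finite.of_surjective L (hP.basis i).2
  · refine (Set.finite_range (fun j : Fin (n + 1) => ((j : ℕ) : ℤ) * k)).subset fun i hi => ?_
    obtain ⟨x, hx⟩ := hi
    obtain ⟨c, hc⟩ := hP.span i x
    by_contra hcon
    apply hx
    rw [hc]
    refine Finset.sum_eq_zero fun j _ => ?_
    exact absurd ⟨j.1, j.2⟩ hcon

theorem IsPObj.finHom_symm (hP : IsPObj 𝕜 n k P t) (h : FinHom 𝕜 P X) : FinHom 𝕜 X P := by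
  refine ⟨fun i => ?_, ?_⟩
  · obtain ⟨e, -⟩ := hP.cy
    have h1 := h.1 (n * k - i)
    have h2 : Module.Finite 𝕜 (Module.Dual 𝕜 (X⟦(n * k - i : ℤ)⟧ ⟶ P⟦(n * k : ℤ)⟧)) :=
      Module.Finite.equiv (e (X⟦(n * k - i : ℤ)⟧))
    have h3 : Module.Finite 𝕜 (X⟦(n * k - i : ℤ)⟧ ⟶ P⟦(n * k : ℤ)⟧) :=
      Module.finite_dual_iff 𝕜 |>.1 h2
    let L : ShiftedHom X P i →ₗ[𝕜] (X⟦(n * k - i : ℤ)⟧ ⟶ P⟦(n * k : ℤ)⟧) :=
      { toFun := fun f => f⟦(n * k - i : ℤ)⟧' ≫
          (shiftFunctorAdd' C i (n * k - i) (n * k) (by ring)).inv.app P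
        map_add' := fun f g => by rw [Functor.map_add, Preadditive.add_comp]
        map_smul' := fun c f => by rw [Functor.map_smul, Linear.smul_comp]; rfl }
    refine Module.Finite.of_injective L fun f g hfg => ?_
    change f⟦(n * k - i : ℤ)⟧' ≫ _ = g⟦(n * k - i : ℤ)⟧' ≫ _ at hfg
    rw [cancel_mono] at hfg
    exact (shiftFunctor C (n * k - i : ℤ)).map_injective hfg
  · refine (h.2.image (fun i => n * k - i)).subset fun i hi => ?_
    obtain ⟨f, hf⟩ := hi
    obtain ⟨g, hg⟩ := hP.pairing (i := i) (j := n * k - i) (by ring) f hf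
    refine ⟨n * k - i, ⟨g, ?_⟩, by ring⟩
    rintro rfl
    exact hg (ShiftedHom.zero_comp _ _ _ _)

end

end Pool.Agent.H749.PT
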