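import Pool.Agent.H749.PT.Act

set_option autoImplicit false
set_option linter.unusedSectionVars false
set_option linter.unusedVariables false

open CategoryTheory CategoryTheory.Limits CategoryTheory.Pretriangulated
open Pool.Agent.V1166.Sph (tpow IsCalabiYau)
open scoped Pointwise

namespace Pool.Agent.H749.PT

universe v u w

variable {C : Type u} [Category.{v} C] [Preadditive C] [HasZeroObject C] [HasShift C ℤ]
  [∀ n : ℤ, (shiftFunctor C n).Additive] [Pretriangulated C]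
variable {𝕜 : Type w} [Field 𝕜] [Linear 𝕜 C] [∀ n : ℤ, (shiftFunctor C n).Linear 𝕜]

theorem exists_pr {n₁ n₂ : ℕ} {k₁ k₂ : ℤ} {P₁ P₂ : C} {t₁ : ShiftedHom P₁ P₁ k₁}
    {t₂ : ShiftedHom P₂ P₂ k₂} (hn₁ : 0 < n₁) (hn₂ : 0 < n₂) (hP₁ : IsPObj 𝕜 n₁ k₁ P₁ t₁)
    (hP₂ : IsPObj 𝕜 n₂ k₂ P₂ t₂) (h12 : FinHom 𝕜 P₁ P₂) (h21 : FinHom 𝕜 P₂ P₁)
    (hno : ∃ (i : ℤ) (x : ShiftedHom P₁ P₂ i), x ≠ 0) (hiso : ∀ m : ℤ, IsEmpty (P₁ ≅ P₂⟦m⟧)) :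
    Pr 𝕜 n₁ n₂ k₁ k₂ P₁ P₂ t₁ t₂ := by
  have hpair : ∀ i : ℤ, (∃ x : ShiftedHom P₁ P₂ i, x ≠ 0) →
      ∃ x : ShiftedHom P₂ P₁ (n₂ * k₂ - i), x ≠ 0 := by
    rintro i ⟨x, hx⟩
    obtain ⟨g, hg⟩ := hP₂.pairing (i := i) (j := n₂ * k₂ - i) (by ring) x hx
    refine ⟨g, ?_⟩
    rintro rfl
    exact hg (ShiftedHom.zero_comp _ _ _ _)
  have hpair' : ∀ i : ℤ, (∃ x : ShiftedHom P₂ P₁ i, x ≠ 0) →
      ∃ x : ShiftedHom P₁ P₂ (n₁ * k₁ - i), x ≠ 0 := by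
    rintro i ⟨x, hx⟩
    obtain ⟨g, hg⟩ := hP₁.pairing (i := i) (j := n₁ * k₁ - i) (by ring) x hx
    refine ⟨g, ?_⟩
    rintro rfl
    exact hg (ShiftedHom.zero_comp _ _ _ _)
  obtain ⟨i₀, hi₀⟩ := hno
  refine ⟨hn₁, hn₂, hP₁, hP₂, hiso, ?_, h12, h21, ?_, ?_, ?_⟩
  · intro m
    refine ⟨fun e => (hiso (-m)).false ?_⟩
    exact ((shiftFunctorCompIsoId C m (-m) (by omega)).app P₁).symm ≪≫
      (shiftFunctor C (-m)).mapIso e.symm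
  · refine h12.low_or.resolve_left fun h => ?_
    obtain ⟨x, hx⟩ := hi₀
    exact hx (h i₀ x)
  · refine h21.low_or.resolve_left fun h => ?_
    obtain ⟨x, hx⟩ := hpair i₀ hi₀
    exact hx (h _ x)
  · have hS : ∀ i : ℤ, (∃ x : ShiftedHom P₁ P₂ i, x ≠ 0) →
        ∃ x : ShiftedHom P₁ P₂ (n₁ * k₁ - (n₂ * k₂ - i)), x ≠ 0 := fun i hi =>
      hpair' _ (hpair i hi)
    have hne : (h12.2.toFinset).Nonempty := ⟨i₀, h12.2.mem_toFinset.2 hi₀⟩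
    rcases lt_trichotomy ((n₁ : ℤ) * k₁) (n₂ * k₂) with h | h | h
    · exfalso
      have h1 := hS _ (h12.2.mem_toFinset.1 (Finset.min'_mem _ hne))
      have h2 := Finset.min'_le _ _ (h12.2.mem_toFinset.2 h1)
      omega
    · exact h
    · exfalso
      have h1 := hS _ (h12.2.mem_toFinset.1 (Finset.max'_mem _ hne))
      have h2 := Finset.le_max' _ _ (h12.2.mem_toFinset.2 h1)
      omega

/-- the objects on which the two twists play ping-pong -/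
def Good (𝕜 : Type w) [Field 𝕜] [Linear 𝕜 C] (P₁ P₂ E : C) : Prop :=
  FinHom 𝕜 P₁ E ∧ FinHom 𝕜 P₂ E ∧ ¬ ((∀ i : ℤ, ∀ x : ShiftedHom P₁ E i, x = 0) ∧
    ∀ i : ℤ, ∀ x : ShiftedHom P₂ E i, x = 0)

theorem Good.swap {P₁ P₂ E : C} (h : Good 𝕜 P₁ P₂ E) : Good 𝕜 P₂ P₁ E :=
  ⟨h.2.1, h.1, fun h' => h.2.2 ⟨h'.2, h'.1⟩⟩

theorem Good.gi {P₁ P₂ E E' : C} (hE : GIso E E') (h : Good 𝕜 P₁ P₂ E) : Good 𝕜 P₁ P₂ E' :=
  ⟨h.1.gi hE, h.2.1.gi hE, fun h' => h.2.2 ⟨zero_gi hE.symm h'.1, zero_gi hE.symm h'.2⟩⟩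

section

variable {n : ℕ} {k : ℤ} {P X : C}
  {t : ShiftedHom P P k} {T : C ≌ C} [T.functor.CommShift ℤ] [T.functor.Additive]
  [T.functor.Linear 𝕜]

theorem good_iff (hP : IsPObj 𝕜 n k P t) (hT : IsPTwist 𝕜 t T.functor) (hX : FinHom 𝕜 X P)
    (E : C) : Good 𝕜 P X (T.functor.obj E) ↔ Good 𝕜 P X E := by
  obtain ⟨D⟩ := hT E
  have h1 := finHom_self hP hT E
  have h2 := zero_self hP hT E
  have key : FinHom 𝕜 P E → (FinHom 𝕜 X (T.functor.obj E) ↔ FinHom 𝕜 X E) := fun h =>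
    D.finHom_iff h hX
  have key2 : (∀ i : ℤ, ∀ x : ShiftedHom P E i, x = 0) →
      ((∀ i : ℤ, ∀ x : ShiftedHom X (T.functor.obj E) i, x = 0) ↔
        ∀ i : ℤ, ∀ x : ShiftedHom X E i, x = 0) := by
    intro h
    obtain ⟨e⟩ := D.iso_of_zero h
    exact ⟨zero_gi (GIso.of_iso e).symm, zero_gi (GIso.of_iso e)⟩
  constructor
  · rintro ⟨h3, h4, h5⟩
    have h6 := h1.1 h3
    exact ⟨h6, (key h6).1 h4, fun h => h5 ⟨h2.2 h.1, (key2 h.1).2 h.2⟩⟩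
  · rintro ⟨h3, h4, h5⟩
    exact ⟨h1.2 h3, (key h3).2 h4, fun h => h5 ⟨h2.1 h.1, (key2 (h2.1 h.1)).1 h.2⟩⟩

end

/-- the attracting sets in the quotient -/
def RRq (n : ℕ) (k : ℤ) (P X : C) : Quotient (gSetoid C) → Prop :=
  Quotient.lift (RR n k P X) fun _ _ h => propext ⟨RR.gi h, RR.gi h.symm⟩

/-- the repelling sets in the quotient; they contain the objects orthogonal to `P` -/
def QQq (n : ℕ) (k : ℤ) (P X : C) : Quotient (gSetoid C) → Prop :=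
  Quotient.lift (fun E => QQ n k P X E ∨ ∀ i : ℤ, ∀ x : ShiftedHom P E i, x = 0)
    fun _ _ h => propext ⟨Or.imp (QQ.gi h) (zero_gi h), Or.imp (QQ.gi h.symm) (zero_gi h.symm)⟩

/-- the good objects in the quotient -/
def Gq (𝕜 : Type w) [Field 𝕜] [Linear 𝕜 C] [∀ n : ℤ, (shiftFunctor C n).Linear 𝕜]
    (P₁ P₂ : C) : Quotient (gSetoid C) → Prop :=
  Quotient.lift (Good 𝕜 P₁ P₂) fun _ _ h => propext ⟨Good.gi h, Good.gi h.symm⟩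

theorem RR.not_zero {n : ℕ} {k : ℤ} {P X E : C} (h : RR n k P X E) :
    (¬ ∀ i : ℤ, ∀ x : ShiftedHom P E i, x = 0) ∧ ¬ ∀ i : ℤ, ∀ x : ShiftedHom X E i, x = 0 := by
  obtain ⟨l, m, β, ⟨⟨x, hx⟩, -⟩, ⟨⟨y, hy⟩, -⟩, -⟩ := h
  exact ⟨fun h => hx (h _ x), fun h => hy (h _ y)⟩

theorem QQ.not_zero {n : ℕ} {k : ℤ} {P X E : C} (h : QQ n k P X E) :
    (¬ ∀ i : ℤ, ∀ x : ShiftedHom P E i, x = 0) ∧ ¬ ∀ i : ℤ, ∀ x : ShiftedHom X E i, x = 0 := by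
  obtain ⟨l, m, β, ⟨⟨x, hx⟩, -⟩, ⟨⟨y, hy⟩, -⟩, -⟩ := h
  exact ⟨fun h => hx (h _ x), fun h => hy (h _ y)⟩

section

variable {n₁ n₂ : ℕ} {k₁ k₂ : ℤ} {P₁ P₂ : C} {t₁ : ShiftedHom P₁ P₁ k₁}
  {t₂ : ShiftedHom P₂ P₂ k₂} {T₁ T₂ : C ≌ C} [T₁.functor.CommShift ℤ] [T₁.functor.Additive]
  [T₁.functor.Linear 𝕜] [T₂.functor.CommShift ℤ] [T₂.functor.Additive] [T₂.functor.Linear 𝕜]

theorem rr_of_not_qq (h : Pr 𝕜 n₁ n₂ k₁ k₂ P₁ P₂ t₁ t₂) (hT : IsPTwist 𝕜 t₁ T₁.functor)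
    (x : Quotient (gSetoid C)) (hx : Gq 𝕜 P₁ P₂ x) (hq : ¬ QQq n₁ k₁ P₁ P₂ x) :
    RRq n₁ k₁ P₁ P₂ (gPerm T₁ x) := by
  induction x using Quotient.inductionOn with
  | h E =>
    obtain ⟨β, hβ⟩ := h.low₂₁
    have hq' : ¬ (QQ n₁ k₁ P₁ P₂ E ∨ ∀ i : ℤ, ∀ x : ShiftedHom P₁ E i, x = 0) := hq
    push Not at hq'
    have hx' : Good 𝕜 P₁ P₂ E := hx
    exact attract h.obj₁ hT hβ hx'.1 hx'.2.1
      (fun h => by obtain ⟨i, x, hx⟩ := hq'.2; exact hx (h i x)) hq'.1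

theorem disj_rr (h : Pr 𝕜 n₁ n₂ k₁ k₂ P₁ P₂ t₁ t₂) (x : Quotient (gSetoid C))
    (h1 : RRq n₁ k₁ P₁ P₂ x) (h2 : RRq n₂ k₂ P₂ P₁ x) : False := by
  induction x using Quotient.inductionOn with
  | h E => exact h.disj_RR h1 h2

theorem disj_rq_self (h : Pr 𝕜 n₁ n₂ k₁ k₂ P₁ P₂ t₁ t₂) (x : Quotient (gSetoid C))
    (h1 : RRq n₁ k₁ P₁ P₂ x) (h2 : QQq n₁ k₁ P₁ P₂ x) : False := by
  induction x using Quotient.inductionOn with
  | h E =>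
    rcases (h2 : QQ n₁ k₁ P₁ P₂ E ∨ ∀ i : ℤ, ∀ x : ShiftedHom P₁ E i, x = 0) with h2 | h2
    · exact h.disj_RQ_self h1 h2
    · exact (RR.not_zero (h1 : RR n₁ k₁ P₁ P₂ E)).1 h2

theorem disj_rq (h : Pr 𝕜 n₁ n₂ k₁ k₂ P₁ P₂ t₁ t₂) (x : Quotient (gSetoid C))
    (h1 : RRq n₁ k₁ P₁ P₂ x) (h2 : QQq n₂ k₂ P₂ P₁ x) : False := by
  induction x using Quotient.inductionOn with
  | h E =>
    rcases (h2 : QQ n₂ k₂ P₂ P₁ E ∨ ∀ i : ℤ, ∀ x : ShiftedHom P₂ E i, x = 0) with h2 | h2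
    · exact h.disj_RQ h1 h2
    · exact (RR.not_zero (h1 : RR n₁ k₁ P₁ P₂ E)).2 h2

theorem disj_qq (h : Pr 𝕜 n₁ n₂ k₁ k₂ P₁ P₂ t₁ t₂) (x : Quotient (gSetoid C))
    (hx : Gq 𝕜 P₁ P₂ x)
    (h1 : QQq n₁ k₁ P₁ P₂ x) (h2 : QQq n₂ k₂ P₂ P₁ x) : False := by
  induction x using Quotient.inductionOn with
  | h E =>
    rcases (h1 : QQ n₁ k₁ P₁ P₂ E ∨ ∀ i : ℤ, ∀ x : ShiftedHom P₁ E i, x = 0) with h1 | h1
    · rcases (h2 : QQ n₂ k₂ P₂ P₁ E ∨ ∀ i : ℤ, ∀ x : ShiftedHom P₂ E i, x = 0) with h2 | h2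
      · exact h.disj_QQ h1 h2
      · exact h1.not_zero.2 h2
    · rcases (h2 : QQ n₂ k₂ P₂ P₁ E ∨ ∀ i : ℤ, ∀ x : ShiftedHom P₂ E i, x = 0) with h2 | h2
      · exact h2.not_zero.2 h1
      · exact (hx : Good 𝕜 P₁ P₂ E).2.2 ⟨h1, h2⟩

theorem gq_iff (h : Pr 𝕜 n₁ n₂ k₁ k₂ P₁ P₂ t₁ t₂) (hT : IsPTwist 𝕜 t₁ T₁.functor)
    (x : Quotient (gSetoid C)) : Gq 𝕜 P₁ P₂ (gPerm T₁ x) ↔ Gq 𝕜 P₁ P₂ x := by
  induction x using Quotient.inductionOn with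
  | h E => exact good_iff h.obj₁ hT h.fin₂₁ E

theorem gq_swap (x : Quotient (gSetoid C)) : Gq 𝕜 P₁ P₂ x ↔ Gq 𝕜 P₂ P₁ x := by
  induction x using Quotient.inductionOn with
  | h E => exact ⟨Good.swap, Good.swap⟩

/-- The two twists generate a free group of permutations of the objects up to isomorphism and
shift. -/
theorem free_gPerm (h : Pr 𝕜 n₁ n₂ k₁ k₂ P₁ P₂ t₁ t₂) (hT₁ : IsPTwist 𝕜 t₁ T₁.functor)
    (hT₂ : IsPTwist 𝕜 t₂ T₂.functor) (hfin : FinHom 𝕜 P₁ P₁) :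
    Function.Injective (FreeGroup.lift ![gPerm T₁, gPerm T₂]) := by
  have hg₁ : ∀ x, Gq 𝕜 P₁ P₂ (gPerm T₁ x) ↔ Gq 𝕜 P₁ P₂ x := gq_iff h hT₁
  have hg₂ : ∀ x, Gq 𝕜 P₁ P₂ (gPerm T₂ x) ↔ Gq 𝕜 P₁ P₂ x := fun x => by
    rw [gq_swap, gq_iff h.symm hT₂ x, gq_swap]
  let A := {x : Quotient (gSetoid C) // Gq 𝕜 P₁ P₂ x}
  let a₁ : Equiv.Perm A := (gPerm T₁).subtypePerm hg₁
  let a₂ : Equiv.Perm A := (gPerm T₂).subtypePerm hg₂
  let X₁ : Set A := {x | RRq n₁ k₁ P₁ P₂ x.1}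
  let X₂ : Set A := {x | RRq n₂ k₂ P₂ P₁ x.1}
  let Y₁ : Set A := {x | QQq n₁ k₁ P₁ P₂ x.1}
  let Y₂ : Set A := {x | QQq n₂ k₂ P₂ P₁ x.1}
  have hX₁ : ∀ x : A, x ∉ Y₁ → a₁ x ∈ X₁ := fun x hx => rr_of_not_qq h hT₁ x.1 x.2 hx
  have hX₂ : ∀ x : A, x ∉ Y₂ → a₂ x ∈ X₂ := fun x hx =>
    rr_of_not_qq h.symm hT₂ x.1 ((gq_swap x.1).1 x.2) hx
  have hY₁ : ∀ x : A, x ∉ X₁ → a₁⁻¹ x ∈ Y₁ := fun x hx => by
    by_contra hcon
    have := hX₁ _ hcon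
    rw [← Equiv.Perm.mul_apply, mul_inv_cancel, Equiv.Perm.one_apply] at this
    exact hx this
  have hY₂ : ∀ x : A, x ∉ X₂ → a₂⁻¹ x ∈ Y₂ := fun x hx => by
    by_contra hcon
    have := hX₂ _ hcon
    rw [← Equiv.Perm.mul_apply, mul_inv_cancel, Equiv.Perm.one_apply] at this
    exact hx this
  have dXX : ∀ x : A, x ∈ X₁ → x ∈ X₂ → False := fun x => disj_rr h x.1
  have dXY₁ : ∀ x : A, x ∈ X₁ → x ∈ Y₁ → False := fun x => disj_rq_self h x.1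
  have dXY₂ : ∀ x : A, x ∈ X₂ → x ∈ Y₂ → False := fun x => disj_rq_self h.symm x.1
  have dXY : ∀ x : A, x ∈ X₁ → x ∈ Y₂ → False := fun x => disj_rq h x.1
  have dYX : ∀ x : A, x ∈ X₂ → x ∈ Y₁ → False := fun x => disj_rq h.symm x.1
  have dYY : ∀ x : A, x ∈ Y₁ → x ∈ Y₂ → False := fun x => disj_qq h x.1 x.2
  -- a base point
  let b : A := ⟨Quotient.mk _ P₁, hfin, h.fin₂₁, fun h0 =>
    h.obj₁.one_ne_zero' 0 rfl (h0.1 0 _)⟩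
  have hne : X₁.Nonempty ∧ X₂.Nonempty := by
    by_cases hb : b ∈ Y₁
    · have h1 : a₂ b ∈ X₂ := hX₂ b fun h2 => dYY b hb h2
      exact ⟨⟨a₁ (a₂ b), hX₁ _ fun h2 => dYX _ h1 h2⟩, ⟨_, h1⟩⟩
    · have h1 : a₁ b ∈ X₁ := hX₁ b hb
      exact ⟨⟨_, h1⟩, ⟨a₂ (a₁ b), hX₂ _ fun h2 => dXY _ h1 h2⟩⟩
  let a : Fin 2 → Equiv.Perm A := ![a₁, a₂]
  let X : Fin 2 → Set A := ![X₁, X₂]
  let Y : Fin 2 → Set A := ![Y₁, Y₂]
  have q1 : ∀ i, (X i).Nonempty := by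
    intro i
    fin_cases i
    · exact hne.1
    · exact hne.2
  have q2 : Pairwise (Function.onFun Disjoint X) := by
    intro i j hij
    fin_cases i <;> fin_cases j
    · exact absurd rfl hij
    · exact Set.disjoint_left.2 fun x h1 h2 => dXX x h1 h2
    · exact Set.disjoint_left.2 fun x h1 h2 => dXX x h2 h1
    · exact absurd rfl hij
  have q3 : Pairwise (Function.onFun Disjoint Y) := by
    intro i j hij
    fin_cases i <;> fin_cases j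
    · exact absurd rfl hij
    · exact Set.disjoint_left.2 fun x h1 h2 => dYY x h1 h2
    · exact Set.disjoint_left.2 fun x h1 h2 => dYY x h2 h1
    · exact absurd rfl hij
  have q4 : ∀ i j, Disjoint (X i) (Y j) := by
    intro i j
    fin_cases i <;> fin_cases j
    · exact Set.disjoint_left.2 fun x h1 h2 => dXY₁ x h1 h2
    · exact Set.disjoint_left.2 fun x h1 h2 => dXY x h1 h2
    · exact Set.disjoint_left.2 fun x h1 h2 => dYX x h1 h2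
    · exact Set.disjoint_left.2 fun x h1 h2 => dXY₂ x h1 h2
  have q5 : ∀ i, a i • (Y i)ᶜ ⊆ X i := by
    intro i
    fin_cases i
    · rintro _ ⟨x, hx, rfl⟩
      exact hX₁ x hx
    · rintro _ ⟨x, hx, rfl⟩
      exact hX₂ x hx
  have q6 : ∀ i, a⁻¹ i • (X i)ᶜ ⊆ Y i := by
    intro i
    fin_cases i
    · rintro _ ⟨x, hx, rfl⟩
      exact hY₁ x hx
    · rintro _ ⟨x, hx, rfl⟩
      exact hY₂ x hx
  have key : Function.Injective (FreeGroup.lift a) := by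
    have key' : Function.Injective (FreeGroup.lift fun i : ULift.{u} (Fin 2) => a i.down) := by
      refine FreeGroup.injective_lift_of_ping_pong (fun i : ULift.{u} (Fin 2) => a i.down)
        (fun i => X i.down) (fun i => Y i.down) (fun i => q1 i.down) (fun i j hij => q2 fun h =>
          hij (ULift.down_injective h)) (fun i j hij => q3 fun h => hij (ULift.down_injective h))
        (fun i j => q4 i.down j.down) (fun i => q5 i.down) (fun i => q6 i.down)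
    have hcomp : FreeGroup.lift a = (FreeGroup.lift fun i : ULift.{u} (Fin 2) => a i.down).comp
        (FreeGroup.freeGroupCongr Equiv.ulift.symm : FreeGroup (Fin 2) ≃*
          FreeGroup (ULift.{u} (Fin 2))).toMonoidHom := by
      ext i
      simp
    rw [hcomp]
    exact key'.comp (FreeGroup.freeGroupCongr Equiv.ulift.symm).injective
  -- pass from the good objects to all objects
  have hrel : ∀ (w : FreeGroup (Fin 2)) (x : A),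
      (FreeGroup.lift a w x).1 = FreeGroup.lift ![gPerm T₁, gPerm T₂] w x.1 := by
    intro w
    induction w using FreeGroup.induction_on with
    | C1 => intro x; simp
    | of i =>
      intro x
      rw [FreeGroup.lift_apply_of, FreeGroup.lift_apply_of]
      fin_cases i <;> rfl
    | inv_of i _ =>
      intro x
      rw [map_inv, map_inv, FreeGroup.lift_apply_of, FreeGroup.lift_apply_of]
      fin_cases i <;> rfl
    | mul v w hv hw =>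
      intro x
      rw [map_mul, map_mul, Equiv.Perm.mul_apply, Equiv.Perm.mul_apply, hv, hw]
  rw [injective_iff_map_eq_one]
  intro w hw
  rw [injective_iff_map_eq_one] at key
  apply key
  ext x
  rw [hrel, hw]
  rfl

end

end Pool.Agent.H749.PT
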