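import Pool.Agent.H749.PT.Tens
import Pool.Agent.V1166.Sph.Defs

set_option autoImplicit false
set_option linter.unusedSectionVars false
set_option linter.unusedVariables false

open CategoryTheory CategoryTheory.Limits CategoryTheory.Pretriangulated
open Pool.Agent.V1166.Sph (tpow IsCalabiYau)

namespace Pool.Agent.H749.PT

universe v u w

variable (𝕜 : Type w) [Field 𝕜] {C : Type u} [Category.{v} C] [Preadditive C] [Linear 𝕜 C]
  [HasShift C ℤ]

/-- The object `P` is a `ℙⁿ[k]`-object and `t` is a generator of its graded endomorphism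
algebra: in each degree `i` the powers `t ^ j` with `j ≤ n` and `j * k = i` form a basis of
`Hom(P, P⟦i⟧)`, and `t ^ (n + 1) = 0`; moreover `P` is `n * k`-Calabi-Yau. -/
structure IsPObj (n : ℕ) (k : ℤ) (P : C) (t : ShiftedHom P P k) : Prop where
  basis : ∀ i : ℤ, Function.Bijective
    (fun c : {j : Fin (n + 1) // ((j : ℕ) : ℤ) * k = i} → 𝕜 =>
      ∑ j, c j • tpow t (j.1 : ℕ) i j.2)
  pow_eq_zero : tpow t (n + 1) _ rfl = 0
  cy : IsCalabiYau 𝕜 P (n * k)

variable {𝕜}
variable [∀ n : ℤ, (shiftFunctor C n).Additive] [∀ n : ℤ, (shiftFunctor C n).Linear 𝕜]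
  {n : ℕ} {k : ℤ} {P : C} {t : ShiftedHom P P k}

theorem tpow_congr {j j' : ℕ} {i : ℤ} (h : (j : ℤ) * k = i) (h' : (j' : ℤ) * k = i)
    (e : j = j') : tpow t j i h = tpow t j' i h' := by subst e; rfl

theorem tpow_zero (i : ℤ) (h : ((0 : ℕ) : ℤ) * k = i) :
    tpow t 0 i h = one P i (by simpa using h.symm) := rfl

theorem tpow_succ (j : ℕ) (i : ℤ) (h : ((j + 1 : ℕ) : ℤ) * k = i) :
    tpow t (j + 1) i h = (tpow t j ((j : ℤ) * k) rfl).comp t (by rw [← h]; push_cast; ring) := rfl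

/-- powers of `t` commute with `t` -/
theorem t_comp_tpow (j : ℕ) (i i' : ℤ) (h : (j : ℤ) * k = i) (h' : i + k = i') :
    t.comp (tpow t j i h) h' = tpow t (j + 1) i' (by rw [← h']; push_cast; rw [← h]; ring) := by
  induction j generalizing i i' with
  | zero =>
    subst h
    rw [tpow_succ, tpow_zero]
    obtain rfl : i' = k := by rw [← h']; push_cast; ring
    rw [one, ShiftedHom.comp_mk₀_id]
    exact (ShiftedHom.mk₀_id_comp _ (by simp) _).symm
  | succ j ih =>
    have e1 : ((j : ℤ) * k) + k = ((j + 1 : ℕ) : ℤ) * k := by push_cast; ring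
    rw [tpow_succ, tpow_succ (j + 1), ← ih _ _ rfl e1]
    subst h h'
    exact (ShiftedHom.comp_assoc t (tpow t j ((j : ℤ) * k) rfl) t (h₁₂ := e1)
      (h₂₃ := by push_cast; ring) (h := by push_cast; ring)).symm

theorem tpow_comp_succ {E : C} (j : ℕ) (i m m' m'' : ℤ) (h : ((j + 1 : ℕ) : ℤ) * k = i)
    (v : ShiftedHom P E m) (h1 : m + k = m') (h2 : m + i = m'') :
    (tpow t (j + 1) i h).comp v h2 =
      (tpow t j ((j : ℤ) * k) rfl).comp (t.comp v h1)
        (by rw [← h1, ← h2, ← h]; push_cast; ring) := by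
  rw [tpow_succ]
  subst h1 h2
  rw [ShiftedHom.comp_assoc (h₁₂ := by rw [← h]; push_cast; ring) (h₂₃ := rfl)
    (h := by rw [← h]; push_cast; ring)]

/-- `t ^ j` kills what `t` kills -/
theorem tpow_comp_zero {E : C} (j : ℕ) (hj : j ≠ 0) (i m m' m'' : ℤ) (h : (j : ℤ) * k = i)
    (v : ShiftedHom P E m) (h1 : m + k = m') (h2 : m + i = m'') (hv : t.comp v h1 = 0) :
    (tpow t j i h).comp v h2 = 0 := by
  obtain ⟨j, rfl⟩ := Nat.exists_eq_succ_of_ne_zero hj
  rw [tpow_comp_succ j i m m' m'' h v h1 h2, hv, ShiftedHom.comp_zero]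

variable (hP : IsPObj 𝕜 n k P t)
include hP

theorem IsPObj.span (i : ℤ) (f : ShiftedHom P P i) :
    ∃ c : {j : Fin (n + 1) // ((j : ℕ) : ℤ) * k = i} → 𝕜,
      f = ∑ j, c j • tpow t (j.1 : ℕ) i j.2 := by
  obtain ⟨c, hc⟩ := (hP.basis i).2 f
  exact ⟨c, hc.symm⟩

theorem IsPObj.tpow_ne_zero (j : ℕ) (hj : j ≤ n) (i : ℤ) (h : (j : ℤ) * k = i) :
    tpow t j i h ≠ 0 := by
  classical
  intro h0
  have h1 := (hP.basis i).1
  let a : {j : Fin (n + 1) // ((j : ℕ) : ℤ) * k = i} := ⟨⟨j, by omega⟩, h⟩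
  have h2 := @h1 (Pi.single a 1) 0 (by
    simp only [Pi.zero_apply, zero_smul, Finset.sum_const_zero]
    rw [Finset.sum_eq_single a]
    · rw [Pi.single_eq_same, one_smul]
      exact h0
    · intro b _ hb
      rw [Pi.single_eq_of_ne hb, zero_smul]
    · intro hb
      exact absurd (Finset.mem_univ a) hb)
  have h3 := congrFun h2 a
  rw [Pi.single_eq_same] at h3
  exact one_ne_zero h3

theorem IsPObj.one_ne_zero' (i : ℤ) (hi : i = 0) : one P i hi ≠ 0 := by
  have h := hP.tpow_ne_zero 0 (by omega) i (by simp [hi])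
  rwa [tpow_zero] at h

/-- induction on graded endomorphisms -/
theorem IsPObj.induct (p : ∀ i : ℤ, ShiftedHom P P i → Prop)
    (h1 : ∀ i hi, p i (one P i hi))
    (ht : ∀ (i j : ℤ) (h : k + i = j) (f : ShiftedHom P P i), p i f → p j (f.comp t h))
    (h0 : ∀ i, p i 0) (hadd : ∀ i f g, p i f → p i g → p i (f + g))
    (hsmul : ∀ i (c : 𝕜) f, p i f → p i (c • f)) (i : ℤ) (f : ShiftedHom P P i) : p i f := by
  have hpow : ∀ (j : ℕ) (i : ℤ) (h : (j : ℤ) * k = i), p i (tpow t j i h) := by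
    intro j
    induction j with
    | zero => intro i h; exact h1 _ _
    | succ j ih =>
      intro i h
      rw [tpow_succ]
      exact ht _ _ _ _ (ih _ _)
  obtain ⟨c, rfl⟩ := hP.span i f
  have key : ∀ S : Finset {j : Fin (n + 1) // ((j : ℕ) : ℤ) * k = i},
      p i (∑ j ∈ S, c j • tpow t (j.1 : ℕ) i j.2) := by
    classical
    intro S
    induction S using Finset.induction_on with
    | empty => simpa using h0 i
    | insert a S ha ih =>
      rw [Finset.sum_insert ha]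
      exact hadd _ _ _ (hsmul _ _ _ (hpow _ _ _)) ih
  exact key _

/-- non-degeneracy of the composition pairing -/
theorem IsPObj.pairing {X : C} {i j : ℤ} (hij : i + j = n * k) (f : ShiftedHom X P i)
    (hf : f ≠ 0) : ∃ g : ShiftedHom P X j, g.comp f (hij) ≠ 0 := by
  obtain ⟨e, he⟩ := hP.cy
  -- `f` as a morphism `X⟦j⟧ ⟶ P⟦n * k⟧`
  let f' : X⟦j⟧ ⟶ P⟦(n * k : ℤ)⟧ := f⟦j⟧' ≫ (shiftFunctorAdd' C i j (n * k) hij).inv.app P
  have hf' : f' ≠ 0 := by
    intro h0
    apply hf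
    have h1 : f⟦j⟧' = 0 := by
      have h2 : f' ≫ (shiftFunctorAdd' C i j (n * k) hij).hom.app P = 0 := by
        rw [h0, Limits.zero_comp]
      simpa [f'] using h2
    exact (shiftFunctor C j).map_injective (by rw [h1, Functor.map_zero])
  obtain ⟨l, hl⟩ := Module.Projective.exists_dual_eq_one 𝕜 hf'
  obtain ⟨g, hg⟩ := (e (X⟦j⟧)).surjective l
  refine ⟨g, fun h0 => ?_⟩
  have h1 := he (X⟦j⟧) (P⟦(n * k : ℤ)⟧) f' g (𝟙 _)
  have h2 : g ≫ f' = 0 := h0
  rw [h2, hg, Category.comp_id, hl, map_zero, LinearMap.zero_apply] at h1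
  exact zero_ne_one h1

end Pool.Agent.H749.PT
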