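import Pool.Agent.H749.PT.Eqv

set_option autoImplicit false
set_option linter.unusedSectionVars false
set_option linter.unusedVariables false

open CategoryTheory CategoryTheory.Limits CategoryTheory.Pretriangulated
open Pool.Agent.V1166.Sph (tpow IsCalabiYau)

namespace Pool.Agent.H749.PT

universe v u w

variable {C : Type u} [Category.{v} C] [Preadditive C] [HasZeroObject C]
  [HasShift C ℤ] [∀ n : ℤ, (shiftFunctor C n).Additive] [Pretriangulated C]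

/-- The attracting set of the twist along `P`, with respect to `X`. -/
def RR (n : ℕ) (k : ℤ) (P X F : C) : Prop :=
  ∃ l m β : ℤ, Low P F l ∧ Low X F m ∧ Low X P β ∧
    ((1 ≤ k ∧ m ≤ l + (2 - n * k - k) + β - 1 ∧ ∃ u : ShiftedHom X F m, u ≠ 0 ∧
      ∀ (a j : ℤ) (g : ShiftedHom P X a) (h : m + a = j), g.comp u h = 0) ∨
    (k ≤ 0 ∧ m = l + β - n * k ∧ ∀ u : ShiftedHom X F m, u ≠ 0 →
      ∀ (a j : ℤ) (ha : a = n * k - β) (h : m + a = j), ∃ g : ShiftedHom P X a, g.comp u h ≠ 0))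

/-- The repelling set of the twist along `P`, with respect to `X`. -/
def QQ (n : ℕ) (k : ℤ) (P X E : C) : Prop :=
  ∃ l m β : ℤ, Low P E l ∧ Low X E m ∧ Low X P β ∧
    ((1 ≤ k ∧ m = l + β ∧ ∀ (v : ShiftedHom P E l) (g : ShiftedHom X P β) (j : ℤ)
      (h : l + β = j), v ≠ 0 → g ≠ 0 → g.comp v h ≠ 0) ∨
    (k ≤ 0 ∧ m ≤ l + β + k - 1))

section

variable (𝕜 : Type w) [Field 𝕜] [Linear 𝕜 C]

/-- Two `ℙ`-objects, not orthogonal, and not isomorphic up to a shift. -/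
structure Pr (n₁ n₂ : ℕ) (k₁ k₂ : ℤ) (P₁ P₂ : C) (t₁ : ShiftedHom P₁ P₁ k₁)
    (t₂ : ShiftedHom P₂ P₂ k₂) : Prop where
  pos₁ : 0 < n₁
  pos₂ : 0 < n₂
  obj₁ : IsPObj 𝕜 n₁ k₁ P₁ t₁
  obj₂ : IsPObj 𝕜 n₂ k₂ P₂ t₂
  iso₁₂ : ∀ m : ℤ, IsEmpty (P₁ ≅ P₂⟦m⟧)
  iso₂₁ : ∀ m : ℤ, IsEmpty (P₂ ≅ P₁⟦m⟧)
  fin₁₂ : FinHom 𝕜 P₁ P₂
  fin₂₁ : FinHom 𝕜 P₂ P₁
  low₁₂ : ∃ β, Low P₁ P₂ β
  low₂₁ : ∃ β, Low P₂ P₁ β
  dim : (n₁ : ℤ) * k₁ = n₂ * k₂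

end

variable {𝕜 : Type w} [Field 𝕜] [Linear 𝕜 C]
  [∀ n : ℤ, (shiftFunctor C n).Linear 𝕜]
  {n₁ n₂ : ℕ} {k₁ k₂ : ℤ} {P₁ P₂ : C} {t₁ : ShiftedHom P₁ P₁ k₁}
  {t₂ : ShiftedHom P₂ P₂ k₂}

namespace Pr

theorem symm (h : Pr 𝕜 n₁ n₂ k₁ k₂ P₁ P₂ t₁ t₂) : Pr 𝕜 n₂ n₁ k₂ k₁ P₂ P₁ t₂ t₁ :=
  ⟨h.pos₂, h.pos₁, h.obj₂, h.obj₁, h.iso₂₁, h.iso₁₂, h.fin₂₁, h.fin₁₂, h.low₂₁, h.low₁₂,
    h.dim.symm⟩

variable (h : Pr 𝕜 n₁ n₂ k₁ k₂ P₁ P₂ t₁ t₂)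
include h

theorem sum_le {β₁₂ β₂₁ : ℤ} (h12 : Low P₁ P₂ β₁₂) (h21 : Low P₂ P₁ β₂₁) :
    β₁₂ + β₂₁ ≤ n₁ * k₁ := by
  obtain ⟨f, hf⟩ := h21.1
  obtain ⟨g, hg⟩ := h.obj₁.pairing (i := β₂₁) (j := n₁ * k₁ - β₂₁) (by ring) f hf
  by_contra hcon
  apply hg
  rw [h12.2 _ (by omega) g, ShiftedHom.zero_comp]

theorem le_mul (hk : 1 ≤ k₁) : k₁ ≤ n₁ * k₁ := by
  have h1 : (1 : ℤ) ≤ n₁ := by exact_mod_cast h.pos₁
  nlinarith

theorem mul_le (hk : k₁ ≤ 0) : (n₁ : ℤ) * k₁ ≤ 0 := by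
  have h1 : (0 : ℤ) ≤ n₁ := by positivity
  nlinarith

theorem one_le (hk : 1 ≤ k₁) : 1 ≤ k₂ := by
  by_contra hcon
  have h1 := h.le_mul hk
  have h2 := h.symm.mul_le (by omega)
  have := h.dim
  omega

theorem le_zero (hk : k₁ ≤ 0) : k₂ ≤ 0 := by
  by_contra hcon
  have h1 := h.symm.one_le (by omega)
  omega

theorem disj_RQ_self {E : C} (h1 : RR n₁ k₁ P₁ P₂ E) (h2 : QQ n₁ k₁ P₁ P₂ E) : False := by
  obtain ⟨l, m, β, hl, hm, hβ, h1⟩ := h1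
  obtain ⟨l', m', β', hl', hm', hβ', h2⟩ := h2
  obtain rfl := hl.unique hl'
  obtain rfl := hm.unique hm'
  obtain rfl := hβ.unique hβ'
  rcases h1 with ⟨hk, h1, -⟩ | ⟨hk, h1, -⟩
  · rcases h2 with ⟨-, h2, -⟩ | ⟨hk', -⟩
    · have := h.le_mul hk
      omega
    · omega
  · rcases h2 with ⟨hk', -⟩ | ⟨-, h2⟩
    · omega
    · have := h.mul_le hk
      omega

theorem disj_RQ {E : C} (h1 : RR n₁ k₁ P₁ P₂ E) (h2 : QQ n₂ k₂ P₂ P₁ E) : False := by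
  obtain ⟨l, m, β, hl, hm, hβ, h1⟩ := h1
  obtain ⟨m', l', β', hm', hl', hβ', h2⟩ := h2
  obtain rfl := hl.unique hl'
  obtain rfl := hm.unique hm'
  rcases h1 with ⟨hk, h1, u, hu, hu'⟩ | ⟨hk, h1, -⟩
  · rcases h2 with ⟨-, h2, h3⟩ | ⟨hk', -⟩
    · obtain ⟨g, hg⟩ := hβ'.1
      exact h3 u g _ rfl hu hg (hu' _ _ g _)
    · have := h.one_le hk
      omega
  · rcases h2 with ⟨hk', -⟩ | ⟨hk', h2⟩
    · have := h.le_zero hk
      omega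
    · have h4 := h.sum_le hβ' hβ
      have h5 := h.dim
      omega

theorem disj_RR {E : C} (h1 : RR n₁ k₁ P₁ P₂ E) (h2 : RR n₂ k₂ P₂ P₁ E) : False := by
  obtain ⟨l, m, β, hl, hm, hβ, h1⟩ := h1
  obtain ⟨m', l', β', hm', hl', hβ', h2⟩ := h2
  obtain rfl := hl.unique hl'
  obtain rfl := hm.unique hm'
  have h4 := h.sum_le hβ' hβ
  have h5 := h.dim
  rcases h1 with ⟨hk, h1, -⟩ | ⟨hk, h1, h6⟩
  · have h7 := h.le_mul hk
    rcases h2 with ⟨hk', h2, -⟩ | ⟨hk', -⟩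
    · omega
    · have := h.one_le hk
      omega
  · rcases h2 with ⟨hk', -⟩ | ⟨hk', h2, h7⟩
    · have := h.le_zero hk
      omega
    · obtain ⟨v, hv, hv'⟩ := h.obj₁.exists_t_left hk hl (rfl : l + k₁ = l + k₁)
      obtain ⟨g, hg⟩ := h7 v hv (n₂ * k₂ - β') m rfl (by omega)
      obtain ⟨g', hg'⟩ := h6 _ hg (n₁ * k₁ - β) l rfl (by omega)
      apply hg'
      have h8 := (h.obj₁.non_unit h.obj₂ h.iso₁₂ g' g (by omega)).2 E l _ v rfl hv'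
      rw [← ShiftedHom.comp_assoc (a₁₂ := 0) (h₁₂ := by omega) (h := by omega)]
      exact h8

theorem disj_QQ {E : C} (h1 : QQ n₁ k₁ P₁ P₂ E) (h2 : QQ n₂ k₂ P₂ P₁ E) : False := by
  obtain ⟨l, m, β, hl, hm, hβ, h1⟩ := h1
  obtain ⟨m', l', β', hm', hl', hβ', h2⟩ := h2
  obtain rfl := hl.unique hl'
  obtain rfl := hm.unique hm'
  have h4 := h.sum_le hβ' hβ
  have h5 := h.dim
  rcases h1 with ⟨hk, h1, h6⟩ | ⟨hk, h1⟩
  · rcases h2 with ⟨hk', h2, h7⟩ | ⟨hk', -⟩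
    · obtain ⟨v, hv⟩ := hl.1
      obtain ⟨g, hg⟩ := hβ.1
      obtain ⟨g', hg'⟩ := hβ'.1
      have h8 := h6 v g m (by omega) hv hg
      have h9 := h7 _ g' l (by omega) h8 hg'
      apply h9
      rw [← ShiftedHom.comp_assoc (a₁₂ := 0) (h₁₂ := by omega) (h := by omega),
        (h.obj₁.non_unit h.obj₂ h.iso₁₂ g' g (by omega)).1 (by omega), ShiftedHom.zero_comp]
    · have := h.one_le hk
      omega
  · rcases h2 with ⟨hk', -⟩ | ⟨hk', h2⟩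
    · have := h.le_zero hk
      omega
    · have := h.mul_le hk
      omega

end Pr

section attract

variable {n : ℕ} {k : ℤ} {P X : C}
  {t : ShiftedHom P P k} {T : C ≌ C} [T.functor.CommShift ℤ] [T.functor.Additive]
  [T.functor.Linear 𝕜]

theorem attract (hP : IsPObj 𝕜 n k P t) (hT : IsPTwist 𝕜 t T.functor) {β : ℤ}
    (hβ : Low X P β) {E : C} (hfin : FinHom 𝕜 P E) (hfin' : FinHom 𝕜 X E)
    (hnz : ¬ ∀ i : ℤ, ∀ x : ShiftedHom P E i, x = 0) (hQ : ¬ QQ n k P X E) :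
    RR n k P X (T.functor.obj E) := by
  obtain ⟨l, hl⟩ := hfin.low_or.resolve_left hnz
  obtain ⟨D⟩ := hT E
  have hs : 2 - n * k - k = 2 - (n + 1) * k := by ring
  have hl' : Low P (T.functor.obj E) (l - (2 - n * k - k)) :=
    (low_shift hP hT hs E (by ring)).2 hl
  rcases le_or_gt 1 k with hk | hk
  · by_cases hcase : ∃ m, Low X E m ∧ m < l + β
    · obtain ⟨m, hm, hlt⟩ := hcase
      obtain ⟨h1, u, hu, hu'⟩ := D.pos_a hk hfin hl hβ hm hlt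
      exact ⟨_, m, β, hl', h1, hβ, Or.inl ⟨hk, by omega, u, hu, hu'⟩⟩
    · have hE : ∀ i, i < l + β → ∀ x : ShiftedHom X E i, x = 0 := by
        intro i hi x
        rcases hfin'.low_or with h | ⟨m, hm⟩
        · exact h i x
        · refine hm.2 i ?_ x
          by_contra hcon
          exact hcase ⟨m, hm, by omega⟩
      have hex : ∃ (v : ShiftedHom P E l) (g : ShiftedHom X P β), v ≠ 0 ∧ g ≠ 0 ∧
          g.comp v (rfl : l + β = l + β) = 0 := by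
        by_contra hcon
        push Not at hcon
        obtain ⟨v, hv⟩ := hl.1
        obtain ⟨g, hg⟩ := hβ.1
        apply hQ
        refine ⟨l, l + β, β, hl, ⟨⟨_, hcon v g hv hg⟩, hE⟩, hβ, Or.inl ⟨hk, rfl, ?_⟩⟩
        intro v g j h hv hg
        subst h
        exact hcon v g hv hg
      obtain ⟨v, g, hv, hg, hgv⟩ := hex
      obtain ⟨h1, u, hu, hu'⟩ := D.pos_b hP hk hfin hl hβ hE rfl v hv g hg hgv
      exact ⟨_, _, β, hl', h1, hβ, Or.inl ⟨hk, by omega, u, hu, hu'⟩⟩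
  · have hE : ∀ i, i ≤ l + β + k - 1 → ∀ x : ShiftedHom X E i, x = 0 := by
      intro i hi x
      rcases hfin'.low_or with h | ⟨m, hm⟩
      · exact h i x
      · refine hm.2 i ?_ x
        by_contra hcon
        exact hQ ⟨l, m, β, hl, hm, hβ, Or.inr ⟨by omega, by omega⟩⟩
    obtain ⟨h1, h2⟩ := D.neg hP (by omega) hfin hl hβ hE
    exact ⟨_, _, β, hl', h1, hβ, Or.inr ⟨by omega, by omega, h2⟩⟩

end attract

end Pool.Agent.H749.PT
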