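import Pool.Agent.H749.PT.St

set_option autoImplicit false
set_option linter.unusedSectionVars false
set_option linter.unusedVariables false

open CategoryTheory CategoryTheory.Limits CategoryTheory.Pretriangulated
open Pool.Agent.V1166.Sph (tpow IsCalabiYau)

namespace Pool.Agent.H749.PT

universe v u w

variable {𝕜 : Type w} [Field 𝕜] {C : Type u} [Category.{v} C] [Preadditive C] [Linear 𝕜 C]
  [HasZeroObject C] [HasShift C ℤ] [∀ n : ℤ, (shiftFunctor C n).Additive] [Pretriangulated C]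
variable [∀ n : ℤ, (shiftFunctor C n).Linear 𝕜]
  {n : ℕ} {k : ℤ} {P : C} {t : ShiftedHom P P k} {E F X : C}

theorem comp_sub' {X Y Z : C} {a b c : ℤ} (f : ShiftedHom X Y a) (g g' : ShiftedHom Y Z b)
    (h : b + a = c) : f.comp (g - g') h = f.comp g h - f.comp g' h := by
  rw [sub_eq_add_neg, ShiftedHom.comp_add, ShiftedHom.comp_neg, ← sub_eq_add_neg]

theorem c1_sub {A D : C} (h : D ⟶ A⟦(1 : ℤ)⟧) {d : ℤ} (z z' : ShiftedHom X D d) (d' : ℤ)
    (hd : 1 + d = d') : c1 h (z - z') d' hd = c1 h z d' hd - c1 h z' d' hd := by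
  rw [c1, c1, c1, sub_eq_add_neg z z', ShiftedHom.add_comp, ShiftedHom.neg_comp,
    ← sub_eq_add_neg]

/-- the functional on the top degree of `End^*(P)` which is dual to `t ^ n` -/
theorem IsPObj.exists_dual (hP : IsPObj 𝕜 n k P t) :
    ∃ lam : ∀ i : ℤ, ShiftedHom P P i →ₗ[𝕜] 𝕜, (∀ i, i ≠ n * k → lam i = 0) ∧
      lam (n * k) (tpow t n (n * k) rfl) = 1 ∧
      ∀ (j : ℕ) (h : (j : ℤ) * k = n * k), j < n → lam (n * k) (tpow t j (n * k) h) = 0 := by
  classical
  let L : ({j : Fin (n + 1) // ((j : ℕ) : ℤ) * k = n * k} → 𝕜) →ₗ[𝕜] ShiftedHom P P (n * k) :=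
    { toFun := fun c => ∑ j, c j • tpow t (j.1 : ℕ) (n * k) j.2
      map_add' := fun c c' => by
        simp only [Pi.add_apply, add_smul, Finset.sum_add_distrib]
      map_smul' := fun a c => by
        simp only [Pi.smul_apply, smul_eq_mul, mul_smul, Finset.smul_sum, RingHom.id_apply] }
  let e := LinearEquiv.ofBijective L (hP.basis _)
  let top : {j : Fin (n + 1) // ((j : ℕ) : ℤ) * k = n * k} := ⟨⟨n, by omega⟩, rfl⟩
  have he : ∀ j, e (Pi.single j 1) = tpow t (j.1 : ℕ) (n * k) j.2 := by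
    intro j
    change ∑ i, (Pi.single j (1 : 𝕜) : _ → 𝕜) i • tpow t (i.1 : ℕ) (n * k) i.2 = _
    rw [Finset.sum_eq_single j]
    · rw [Pi.single_eq_same, one_smul]
    · intro b _ hb
      rw [Pi.single_eq_of_ne hb, zero_smul]
    · intro hb
      exact absurd (Finset.mem_univ j) hb
  refine ⟨Pi.single (n * k) ((LinearMap.proj top) ∘ₗ e.symm.toLinearMap), ?_, ?_, ?_⟩
  · intro i hi
    exact Pi.single_eq_of_ne hi _
  · rw [Pi.single_eq_same]
    change (e.symm (tpow t (top.1 : ℕ) (n * k) top.2)) top = 1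
    rw [← he top, LinearEquiv.symm_apply_apply, Pi.single_eq_same]
  · intro j h hj
    rw [Pi.single_eq_same]
    let a : {j : Fin (n + 1) // ((j : ℕ) : ℤ) * k = n * k} := ⟨⟨j, by omega⟩, h⟩
    change (e.symm (tpow t (a.1 : ℕ) (n * k) a.2)) top = 0
    rw [← he a, LinearEquiv.symm_apply_apply]
    apply Pi.single_eq_of_ne
    intro h1
    have h2 := congrArg (fun x => (x.1 : ℕ)) h1
    change n = j at h2
    omega

namespace PTwistTriangles

variable (D : PTwistTriangles 𝕜 t P F)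

/-- the morphism `P ⟶ M'` of degree `m * k` -/
noncomputable def kap : (m : ℕ) → (i : ℤ) → (m : ℤ) * k = i → ShiftedHom P D.M' i
  | 0, _, _ => 0
  | m + 1, i, h => t.comp (kap m ((m : ℤ) * k) rfl) (by rw [← h]; push_cast; ring) +
      D.ι' ((m : ℤ) * k) i (by rw [← h]; push_cast; ring) (tpow t m ((m : ℤ) * k) rfl)

theorem kap_H (m : ℕ) (i : ℤ) (h : (m : ℤ) * k = i) : D.kap m i h ≫ D.H⟦i⟧' =
    D.ι i i (add_zero i) (tpow t m i h) -
      (tpow t m i h).comp (D.ι 0 0 (add_zero 0) (one P 0 rfl)) (by simp) := by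
  induction m generalizing i with
  | zero =>
    obtain rfl : i = 0 := by simpa using h.symm
    rw [kap, Limits.zero_comp, tpow_zero, one, ShiftedHom.mk₀_id_comp, sub_self]
  | succ m ih =>
    have e1 : (m : ℤ) * k + k = i := by rw [← h]; push_cast; ring
    rw [kap, Preadditive.add_comp, comp_map0, ih _ rfl, D.H_eq, comp_sub',
      t_comp_tpow m _ _ rfl e1]
    rw [← ShiftedHom.comp_assoc (a₁₂ := i) (h₁₂ := e1) (h := by rw [← e1]; ring),
      t_comp_tpow m _ _ rfl e1]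
    abel

/-- `P` is, up to a shift, a retract of its twist -/
theorem self (D : PTwistTriangles 𝕜 t P F) (hP : IsPObj 𝕜 n k P t) {s s' : ℤ}
    (hs : s = 2 - (n + 1) * k) (hs' : s + s' = 0) :
    ∃ (u : ShiftedHom P F s') (w : ShiftedHom F P s), u.comp w hs' = one P 0 rfl := by
  classical
  obtain ⟨lam, hl1, hl2, hl3⟩ := hP.exists_dual
  obtain ⟨ρ, hρ⟩ := D.tensor'.proj (n * k) lam (-(n * k + k)) (by ring) hl1
  have h1 : ∀ (j : ℕ) (i m : ℤ) (h : (j : ℤ) * k + k = i) (hm : -(n * k + k) + i = m),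
      j < n → (D.ι' ((j : ℤ) * k) i h (tpow t j ((j : ℤ) * k) rfl)).comp ρ hm = 0 := by
    intro j i m h hm hj
    rw [hρ]
    split_ifs with hm0
    · have e : (j : ℤ) * k = n * k := by
        have : (j : ℤ) * k + k = n * k + k := by rw [h]; omega
        linarith
      have h2 := hl3 j e hj
      have h3 : lam ((j : ℤ) * k) (tpow t j ((j : ℤ) * k) rfl) = 0 := by
        have h4 : ∀ (i : ℤ) (h : (j : ℤ) * k = i), i = n * k → lam i (tpow t j i h) = 0 := by
          intro i h hi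
          subst hi
          exact h2
        exact h4 _ rfl e
      rw [h3, zero_smul]
    · rfl
  have h2 : ∀ (m : ℕ) (i i' : ℤ) (h : (m : ℤ) * k = i) (h' : -(n * k + k) + i = i'), m ≤ n →
      (D.kap m i h).comp ρ h' = 0 := by
    intro m
    induction m with
    | zero =>
      intro i i' h h' _
      rw [kap, ShiftedHom.zero_comp]
    | succ m ih =>
      intro i i' h h' hm
      rw [kap, ShiftedHom.add_comp, h1 m _ _ _ _ (by omega), add_zero,
        ShiftedHom.comp_assoc (a₂₃ := -(n * k + k) + (m : ℤ) * k) (h₂₃ := rfl)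
          (h := by rw [← h', ← h]; push_cast; ring), ih _ _ rfl rfl (by omega),
        ShiftedHom.comp_zero]
  have e1 : ((n + 1 : ℕ) : ℤ) * k = n * k + k := by push_cast; ring
  have h3 : (D.kap (n + 1) (n * k + k) e1).comp ρ (by ring : -(n * k + k) + (n * k + k) = 0) =
      one P 0 rfl := by
    rw [kap, ShiftedHom.add_comp,
      ShiftedHom.comp_assoc (a₂₃ := -(n * k + k) + (n : ℤ) * k) (h₂₃ := rfl) (h := by ring),
      h2 n _ _ rfl rfl le_rfl, ShiftedHom.comp_zero, zero_add, hρ, dif_pos rfl, hl2, one_smul]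
  have h4 : (D.kap (n + 1) (n * k + k) e1) ≫ D.H⟦(n * k + k : ℤ)⟧' = 0 := by
    rw [D.kap_H]
    have h5 : ∀ (i : ℤ) (h : ((n + 1 : ℕ) : ℤ) * k = i), tpow t (n + 1) i h = 0 := by
      intro i h
      subst h
      exact hP.pow_eq_zero
    rw [h5, map_zero, ShiftedHom.zero_comp, sub_zero]
  obtain ⟨z, hz⟩ := exact1 D.dist (d := n * k + k - 1) _ (by ring) h4
  have hz' : (z - D.jj (z ≫ D.e⟦(n * k + k - 1 : ℤ)⟧')) ≫ D.e⟦(n * k + k - 1 : ℤ)⟧' = 0 := by
    rw [Preadditive.sub_comp, D.jj_e, sub_self]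
  have hs2 : s = 2 - n * k - k := by rw [hs]; ring
  obtain ⟨u, hu⟩ := exact1 D.dist' (d := s') _ (by omega) hz'
  have h6 : c1 D.δ (z - D.jj (z ≫ D.e⟦(n * k + k - 1 : ℤ)⟧')) (n * k + k) (by ring) =
      D.kap (n + 1) (n * k + k) e1 := by
    have h7 := D.jj_c1 (z ≫ D.e⟦(n * k + k - 1 : ℤ)⟧') (by ring : 1 + (n * k + k - 1) = n * k + k)
    rw [c1_sub, hz, h7, sub_zero]
  let v : ShiftedHom D.G P (-(n * k + k) + 1) := ShiftedHom.comp (a := (1 : ℤ)) D.δ ρ rfl
  let w : ShiftedHom F P s := ShiftedHom.comp (a := (1 : ℤ)) D.δ' v (by omega)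
  refine ⟨u, w, ?_⟩
  have h8 : u.comp w hs' = (c1 D.δ' u (n * k + k - 1) (by omega)).comp v (by omega) := by
    rw [c1]
    exact (ShiftedHom.comp_assoc u (a₂ := (1 : ℤ)) D.δ' v (h₁₂ := by omega) (h₂₃ := by omega)
      (h := by omega)).symm
  have h9 : ∀ y : ShiftedHom P D.G (n * k + k - 1), y.comp v (by omega : _ = (0 : ℤ)) =
      (c1 D.δ y (n * k + k) (by ring)).comp ρ (by ring) := by
    intro y
    rw [c1]
    exact (ShiftedHom.comp_assoc y (a₂ := (1 : ℤ)) D.δ ρ (h₁₂ := by omega) (h₂₃ := rfl)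
      (h := by omega)).symm
  rw [h8, hu, h9, h6, h3]

end PTwistTriangles

end Pool.Agent.H749.PT
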