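import Pool.Agent.H749.PT.Tw

set_option autoImplicit false
set_option linter.unusedSectionVars false
set_option linter.unusedVariables false

open CategoryTheory CategoryTheory.Limits CategoryTheory.Pretriangulated
open Pool.Agent.V1166.Sph (tpow IsCalabiYau)

namespace Pool.Agent.H749.PT

universe v u w

variable {𝕜 : Type w} [Field 𝕜] {C : Type u} [Category.{v} C] [Preadditive C] [Linear 𝕜 C]
  [HasZeroObject C] [HasShift C ℤ] [∀ n : ℤ, (shiftFunctor C n).Additive] [Pretriangulated C]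
variable [∀ n : ℤ, (shiftFunctor C n).Linear 𝕜]
  {n : ℕ} {k : ℤ} {P : C} {t : ShiftedHom P P k} {E F X : C}

/-- `l` is the lowest degree of the graded space `Hom^*(X, E)`. -/
def Low (X E : C) (l : ℤ) : Prop :=
  (∃ x : ShiftedHom X E l, x ≠ 0) ∧ ∀ i, i < l → ∀ x : ShiftedHom X E i, x = 0

theorem Low.unique {l l' : ℤ} (h : Low X E l) (h' : Low X E l') : l = l' := by
  obtain ⟨⟨x, hx⟩, h2⟩ := h
  obtain ⟨⟨x', hx'⟩, h2'⟩ := h'
  rcases lt_trichotomy l l' with h3 | h3 | h3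
  · exact absurd (h2' l h3 x) hx
  · exact h3
  · exact absurd (h2 l' h3 x') hx'

theorem FinHom.low_or (h : FinHom 𝕜 X E) :
    (∀ i : ℤ, ∀ x : ShiftedHom X E i, x = 0) ∨ ∃ l, Low X E l := by
  by_cases hz : ∀ i : ℤ, ∀ x : ShiftedHom X E i, x = 0
  · exact Or.inl hz
  · right
    push Not at hz
    have hne : (h.2.toFinset).Nonempty := by
      obtain ⟨i, x, hx⟩ := hz
      exact ⟨i, h.2.mem_toFinset.2 ⟨x, hx⟩⟩
    refine ⟨(h.2.toFinset).min' hne, h.2.mem_toFinset.1 (Finset.min'_mem _ hne), fun i hi x => ?_⟩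
    by_contra hx
    exact absurd (Finset.min'_le _ i (h.2.mem_toFinset.2 ⟨x, hx⟩)) (by omega)

theorem c1_zero {A D : C} (h : D ⟶ A⟦(1 : ℤ)⟧) {d : ℤ} (d' : ℤ) (hd : 1 + d = d') :
    c1 h (0 : ShiftedHom X D d) d' hd = 0 := ShiftedHom.zero_comp _ _ _ _

namespace PTwistTriangles

variable (D : PTwistTriangles 𝕜 t E F) {l m β : ℤ}
include D

theorem pos_a (hk : 1 ≤ k) (hfin : FinHom 𝕜 P E) (hl : Low P E l) (hβ : Low X P β)
    (hm : Low X E m) (hlt : m < l + β) :
    Low X F m ∧ ∃ u : ShiftedHom X F m, u ≠ 0 ∧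
      ∀ (a j : ℤ) (g : ShiftedHom P X a) (h : m + a = j), g.comp u h = 0 := by
  obtain ⟨⟨z, hz⟩, hm2⟩ := hm
  have hu : z ≫ D.q⟦m⟧' ≠ 0 := by
    intro h0
    obtain ⟨y, hy⟩ := exact2 D.dist' z h0
    apply hz
    rw [← hy, D.low_G hfin hl.2 hβ.2 hlt (by omega) y, Limits.zero_comp]
  refine ⟨⟨⟨z ≫ D.q⟦m⟧', hu⟩, fun i hi y => ?_⟩, z ≫ D.q⟦m⟧', hu, fun a j g h => ?_⟩
  · obtain ⟨x, rfl⟩ := exact3 D.dist' y (rfl : 1 + i = 1 + i)
      (D.low_G hfin hl.2 hβ.2 (by omega) (by omega) _)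
    rw [hm2 i hi x, Limits.zero_comp]
  · rw [← comp_map0]
    exact D.kill _

theorem pos_b (hP : IsPObj 𝕜 n k P t) (hk : 1 ≤ k) (hfin : FinHom 𝕜 P E) (hl : Low P E l)
    (hβ : Low X P β) (hE : ∀ i, i < l + β → ∀ x : ShiftedHom X E i, x = 0)
    {j : ℤ} (hj : l + β = j) (v : ShiftedHom P E l) (hv : v ≠ 0) (g : ShiftedHom X P β)
    (hg : g ≠ 0) (hgv : g.comp v hj = 0) :
    Low X F (l + β - 1) ∧ ∃ u : ShiftedHom X F (l + β - 1), u ≠ 0 ∧
      ∀ (a j : ℤ) (g : ShiftedHom P X a) (h : l + β - 1 + a = j), g.comp u h = 0 := by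
  subst hj
  have hd : (1 : ℤ) + (l + β - 1) = l + β := by omega
  have hw0 : (g.comp (D.jj v) (rfl : l + β = l + β)) ≫ D.e⟦l + β⟧' = 0 := by
    rw [comp_map0, D.jj_e, hgv]
  obtain ⟨u, hu⟩ := exact1 D.dist' _ hd hw0
  have hw : g.comp (D.jj v) (rfl : l + β = l + β) ≠ 0 := by
    intro h0
    rw [jj, ← comp_map0] at h0
    obtain ⟨y, hy⟩ := exact2 D.dist _ h0
    refine D.tensor.comp_ne_zero (add_zero l) v hv g hg (rfl : l + β = l + β) ?_
    rw [← hy, D.tensor'.low hfin hl.2 hβ.2 (by omega) y, Limits.zero_comp]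
  have hu0 : u ≠ 0 := by
    rintro rfl
    apply hw
    rw [← hu, c1, ShiftedHom.zero_comp]
  refine ⟨⟨⟨u, hu0⟩, fun i hi y => ?_⟩, u, hu0, fun a j g' h => ?_⟩
  · obtain ⟨x, rfl⟩ := exact3 D.dist' y (rfl : 1 + i = 1 + i)
      (D.low_G hfin hl.2 hβ.2 (by omega) (by omega) _)
    rw [hE i (by omega) x, Limits.zero_comp]
  · have h1 : c1 D.δ' (g'.comp u h) (1 + j) rfl = 0 := by
      rw [comp_c1 D.δ' g' u hd h rfl (by omega), hu,
        ← ShiftedHom.comp_assoc (a₁₂ := β + a) (h₁₂ := rfl) (h := by omega),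
        ← D.jj_lin hP (g'.comp g rfl) v (by omega),
        ShiftedHom.comp_assoc (a₂₃ := l + β) (h₂₃ := rfl) (h := by omega), hgv,
        ShiftedHom.comp_zero, jj_zero]
    obtain ⟨y, hy⟩ := exact3 D.dist' _ rfl h1
    rw [← hy]
    exact D.kill y

end PTwistTriangles

/-- In the lowest degree there is a non-zero element killed by `t`. -/
theorem IsPObj.exists_t_left (hP : IsPObj 𝕜 n k P t) (hk : k ≤ 0) {l l' : ℤ} (hl : Low P E l)
    (h' : l + k = l') : ∃ v : ShiftedHom P E l, v ≠ 0 ∧ t.comp v h' = 0 := by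
  by_contra hcon
  push Not at hcon
  obtain ⟨⟨v, hv⟩, hl2⟩ := hl
  rcases hk.lt_or_eq with hk | hk
  · exact hcon v hv (hl2 l' (by omega) _)
  · subst hk
    have key : ∀ (j : ℕ) (v : ShiftedHom P E l), v ≠ 0 → ∀ (i m : ℤ) (h : (j : ℤ) * 0 = i)
        (h2 : l + i = m), (tpow t j i h).comp v h2 ≠ 0 := by
      intro j
      induction j with
      | zero =>
        intro v hv i m h h2
        obtain rfl : i = 0 := by simpa using h.symm
        obtain rfl : m = l := by omega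
        rw [tpow_zero, one, ShiftedHom.mk₀_id_comp]
        exact hv
      | succ j ih =>
        intro v hv i m h h2
        have h3 : i = 0 := by simpa using h.symm
        rw [tpow_comp_succ j i l l m h v (add_zero l) h2]
        refine ih _ ?_ _ _ rfl _
        obtain rfl : l' = l := by omega
        exact hcon v hv
    refine key (n + 1) v hv _ _ rfl rfl ?_
    rw [hP.pow_eq_zero, ShiftedHom.zero_comp]

theorem IsPObj.exists_t_right (hP : IsPObj 𝕜 n k P t) (hk : k ≤ 0) {l l' : ℤ} (hl : Low X P l)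
    (h' : k + l = l') : ∃ v : ShiftedHom X P l, v ≠ 0 ∧ v.comp t h' = 0 := by
  by_contra hcon
  push Not at hcon
  obtain ⟨⟨v, hv⟩, hl2⟩ := hl
  rcases hk.lt_or_eq with hk | hk
  · exact hcon v hv (hl2 l' (by omega) _)
  · subst hk
    have key : ∀ (j : ℕ) (i m : ℤ) (h : (j : ℤ) * 0 = i)
        (h2 : i + l = m), v.comp (tpow t j i h) h2 ≠ 0 := by
      intro j
      induction j with
      | zero =>
        intro i m h h2
        obtain rfl : i = 0 := by simpa using h.symm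
        obtain rfl : m = l := by omega
        rw [tpow_zero, one, ShiftedHom.comp_mk₀_id]
        exact hv
      | succ j ih =>
        intro i m h h2
        have h3 : i = 0 := by simpa using h.symm
        obtain rfl : m = l := by omega
        obtain rfl : l' = m := by omega
        have h4 := hcon (v.comp (tpow t j ((j : ℤ) * 0) rfl) (by simp)) (ih _ _ rfl (by simp))
        rw [ShiftedHom.comp_assoc (a₂₃ := i) (h₂₃ := by simp [h3]) (h := by simp)] at h4
        exact h4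
    refine key (n + 1) _ _ rfl rfl ?_
    rw [hP.pow_eq_zero, ShiftedHom.comp_zero]

namespace PTwistTriangles

variable (D : PTwistTriangles 𝕜 t E F) {l m β : ℤ}
include D

theorem neg (hP : IsPObj 𝕜 n k P t) (hk : k ≤ 0) (hfin : FinHom 𝕜 P E) (hl : Low P E l)
    (hβ : Low X P β) (hE : ∀ i, i ≤ l + β + k - 1 → ∀ x : ShiftedHom X E i, x = 0) :
    Low X F (l + β + k - 2) ∧ ∀ u : ShiftedHom X F (l + β + k - 2), u ≠ 0 →
      ∀ (a j : ℤ) (ha : a = n * k - β) (h : l + β + k - 2 + a = j),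
        ∃ g : ShiftedHom P X a, g.comp u h ≠ 0 := by
  obtain ⟨v₀, hv₀, hv₀'⟩ := hP.exists_t_left hk hl (rfl : l + k = l + k)
  obtain ⟨g₀, hg₀, hg₀'⟩ := hP.exists_t_right hk hβ (rfl : k + β = k + β)
  have hd : (1 : ℤ) + (l + β + k - 1) = l + k + β := by omega
  have hd' : (1 : ℤ) + (l + β + k - 2) = l + β + k - 1 := by omega
  have hw : g₀.comp (D.ι' l (l + k) rfl v₀) (rfl : l + k + β = l + k + β) ≠ 0 :=
    D.tensor'.comp_ne_zero rfl v₀ hv₀ g₀ hg₀ rfl
  have hwH : (g₀.comp (D.ι' l (l + k) rfl v₀) (rfl : l + k + β = l + k + β)) ≫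
      D.H⟦l + k + β⟧' = 0 := by
    rw [comp_map0, D.H_eq, hv₀', map_zero, zero_sub, ShiftedHom.comp_neg,
      ← ShiftedHom.comp_assoc (a₁₂ := k + β) (h₁₂ := rfl) (h := by omega), hg₀',
      ShiftedHom.zero_comp, neg_zero]
  obtain ⟨z, hz⟩ := exact1 D.dist _ hd hwH
  have hz0 : z ≠ 0 := by
    rintro rfl
    apply hw
    rw [← hz, c1, ShiftedHom.zero_comp]
  obtain ⟨u, hu⟩ := exact1 D.dist' z hd' (hE _ (by omega) _)
  have hu0 : u ≠ 0 := by
    rintro rfl
    apply hz0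
    rw [← hu, c1, ShiftedHom.zero_comp]
  refine ⟨⟨⟨u, hu0⟩, fun i hi y => ?_⟩, fun u hu a j ha h => ?_⟩
  · obtain ⟨x, rfl⟩ := exact3 D.dist' y (rfl : 1 + i = 1 + i)
      (D.low_G hfin hl.2 hβ.2 (by omega) (by omega) _)
    rw [hE i (by omega) x, Limits.zero_comp]
  · have hz : c1 D.δ' u (l + β + k - 1) hd' ≠ 0 := by
      intro h0
      obtain ⟨x, hx⟩ := exact3 D.dist' u hd' h0
      apply hu
      rw [← hx, hE _ (by omega) x, Limits.zero_comp]
    have hm : c1 D.δ (c1 D.δ' u (l + β + k - 1) hd') (l + k + β) hd ≠ 0 := by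
      intro h0
      obtain ⟨y, hy⟩ := exact3 D.dist _ hd h0
      apply hz
      rw [← hy, D.tensor.low hfin hl.2 hβ.2 (by omega) y, Limits.zero_comp]
    obtain ⟨i, x, s, ρ, hs, hx, hρ⟩ := D.tensor'.exists_proj hfin _ hm
    have h1 : l ≤ i := by
      by_contra hcon
      exact hx (hl.2 i (by omega) x)
    have h2 : β ≤ s + (l + k + β) := by
      by_contra hcon
      exact hρ (hβ.2 _ (by omega) _)
    obtain rfl : i = l := by omega
    obtain ⟨g, hg⟩ := hP.pairing (i := s + (i + k + β)) (j := a) (by omega) _ hρ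
    refine ⟨g, fun h0 => hg ?_⟩
    rw [← ShiftedHom.comp_assoc (a₁₂ := i + k + β + a) (h₁₂ := rfl) (h := by omega),
      ← comp_c1 D.δ g _ hd (rfl : i + β + k - 1 + a = _) (by omega) rfl,
      ← comp_c1 D.δ' g u hd' h (by omega) rfl, h0]
    rw [c1_zero, c1_zero, ShiftedHom.zero_comp]

end PTwistTriangles

end Pool.Agent.H749.PT
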