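import Pool.Agent.H749.PT.Gr

set_option autoImplicit false
set_option linter.unusedSectionVars false
set_option linter.unusedVariables false

open CategoryTheory CategoryTheory.Limits CategoryTheory.Pretriangulated

namespace Pool.Agent.H749.PT

universe v u w

variable (𝕜 : Type w) [Field 𝕜] {C : Type u} [Category.{v} C] [Preadditive C] [Linear 𝕜 C]
  [HasShift C ℤ]

/-- The object `M`, with the linear maps `ι : Hom^i(P, E) → Hom^(i+r)(P, M)`, is the tensor
product `Hom^*(P, E) ⊗ P⟦-r⟧ = ⨁ Hom^i(P, E) ⊗ P⟦-i-r⟧`: it represents the functor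
`Y ↦ ∏ Hom(Hom^i(P, E), Hom^(i+r)(P, Y))`. -/
def IsTensor (P E : C) (r : ℤ) (M : C)
    (ι : ∀ i j : ℤ, i + r = j → (ShiftedHom P E i →ₗ[𝕜] ShiftedHom P M j)) : Prop :=
  ∀ (Y : C) (ψ : ∀ i j : ℤ, i + r = j → (ShiftedHom P E i →ₗ[𝕜] ShiftedHom P Y j)),
    ∃! g : M ⟶ Y, ∀ (i j : ℤ) (h : i + r = j) (x : ShiftedHom P E i),
      ι i j h x ≫ g⟦j⟧' = ψ i j h x

/-- The graded vector space `Hom^*(X, Y)` is finite-dimensional. -/
def FinHom (X Y : C) : Prop :=
  (∀ i : ℤ, Module.Finite 𝕜 (ShiftedHom X Y i)) ∧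
    {i : ℤ | ∃ x : ShiftedHom X Y i, x ≠ 0}.Finite

/-- the identity of `P`, as a morphism of degree `0` -/
noncomputable def one (P : C) (i : ℤ) (hi : i = 0) : ShiftedHom P P i :=
  ShiftedHom.mk₀ i hi (𝟙 P)

theorem comp_one {X P : C} {a b i : ℤ} (g : ShiftedHom X P a) (hi : i = 0) (h : i + a = b) :
    g.comp (one P i hi) h = (by
      have : a = b := by omega
      exact this ▸ g) := by
  subst hi
  obtain rfl : a = b := by omega
  exact ShiftedHom.comp_mk₀_id g 0 rfl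

variable {𝕜}

section

variable [∀ n : ℤ, (shiftFunctor C n).Additive] [∀ n : ℤ, (shiftFunctor C n).Linear 𝕜]

theorem IsTensor.hom_ext {P E : C} {r : ℤ} {M : C}
    {ι : ∀ i j : ℤ, i + r = j → (ShiftedHom P E i →ₗ[𝕜] ShiftedHom P M j)}
    (hM : IsTensor 𝕜 P E r M ι) {Y : C} {g g' : M ⟶ Y}
    (h : ∀ (i j : ℤ) (h : i + r = j) (x : ShiftedHom P E i),
      ι i j h x ≫ g⟦j⟧' = ι i j h x ≫ g'⟦j⟧') : g = g' :=
  (hM Y (fun i j h => (Linear.rightComp 𝕜 P (g'⟦j⟧')) ∘ₗ ι i j h)).unique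
    (fun i j h' x => h i j h' x) (fun i j h x => rfl)

/-- the projection of the tensor product to `P` given by a functional -/
theorem IsTensor.proj {P E : C} {r : ℤ} {M : C}
    {ι : ∀ i j : ℤ, i + r = j → (ShiftedHom P E i →ₗ[𝕜] ShiftedHom P M j)}
    (hM : IsTensor 𝕜 P E r M ι) (i₀ : ℤ) (lam : ∀ i : ℤ, ShiftedHom P E i →ₗ[𝕜] 𝕜)
    (s : ℤ) (hs : s + (i₀ + r) = 0) (hlam : ∀ i, i ≠ i₀ → lam i = 0) :
    ∃ ρ : ShiftedHom M P s, ∀ (i j : ℤ) (h : i + r = j) (x : ShiftedHom P E i) (m : ℤ)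
      (hm : s + j = m), (ι i j h x).comp ρ hm =
        if hm0 : m = 0 then lam i x • one P m hm0 else 0 := by
  have hs' : i₀ + r + s = 0 := by omega
  -- the isomorphism `P ⟶ P⟦s⟧⟦i₀ + r⟧`
  let κ : ShiftedHom P (P⟦s⟧) (i₀ + r) :=
    (shiftFunctorCompIsoId C s (i₀ + r) hs).inv.app P
  obtain ⟨g, hg, -⟩ := hM (P⟦s⟧) (fun i j h => (lam i).smulRight
    (if hj : j = i₀ + r then (hj ▸ κ : ShiftedHom P (P⟦s⟧) j) else 0))
  refine ⟨g, fun i j h x m hm => ?_⟩
  have h1 := hg i j h x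
  rw [LinearMap.smulRight_apply] at h1
  rw [ShiftedHom.comp, ← Category.assoc, h1]
  by_cases hm0 : m = 0
  · rw [dif_pos hm0]
    subst hm0
    obtain rfl : i = i₀ := by omega
    obtain rfl : j = i + r := by omega
    rw [dif_pos rfl, Linear.smul_comp]
    congr 1
    change (shiftFunctorCompIsoId C s (i + r) hs).inv.app P ≫
      (shiftFunctorAdd' C s (i + r) 0 hs).inv.app P = ShiftedHom.mk₀ 0 rfl (𝟙 P)
    rw [shiftFunctorCompIsoId, ShiftedHom.mk₀]
    simp [shiftFunctorZero']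
  · have : i ≠ i₀ := by omega
    rw [hlam i this, dif_neg hm0]
    simp

theorem sum_comp {X Y Z : C} {a b c : ℤ} {A : Type*} (S : Finset A)
    (f : A → ShiftedHom X Y a) (g : ShiftedHom Y Z b) (h : b + a = c) :
    (∑ x ∈ S, f x).comp g h = ∑ x ∈ S, (f x).comp g h := by
  classical
  induction S using Finset.induction_on with
  | empty => simp
  | insert x S hx ih => rw [Finset.sum_insert hx, Finset.sum_insert hx, ShiftedHom.add_comp, ih]

theorem comp_sum {X Y Z : C} {a b c : ℤ} {A : Type*} (S : Finset A)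
    (f : ShiftedHom X Y a) (g : A → ShiftedHom Y Z b) (h : b + a = c) :
    f.comp (∑ x ∈ S, g x) h = ∑ x ∈ S, f.comp (g x) h := by
  classical
  induction S using Finset.induction_on with
  | empty => simp
  | insert x S hx ih => rw [Finset.sum_insert hx, Finset.sum_insert hx, ShiftedHom.comp_add, ih]

/-- a graded basis -/
theorem FinHom.decomp {P E : C} (h : FinHom 𝕜 P E) :
    ∃ (A : Type) (_ : Fintype A) (deg : A → ℤ) (b : ∀ (_ : A) (i : ℤ), ShiftedHom P E i)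
      (lam : ∀ (_ : A) (i : ℤ), ShiftedHom P E i →ₗ[𝕜] 𝕜),
      (∀ a, b a (deg a) ≠ 0) ∧
      (∀ a i, i ≠ deg a → lam a i = 0) ∧ (∀ a i, i ≠ deg a → b a i = 0) ∧
      ∀ (i : ℤ) (x : ShiftedHom P E i), x = ∑ a, lam a i x • b a i := by
  classical
  obtain ⟨h1, h2⟩ := h
  let S : Finset ℤ := h2.toFinset
  have hS : ∀ i (x : ShiftedHom P E i), i ∉ S → x = 0 := by
    intro i x hi
    by_contra hx
    exact hi (h2.mem_toFinset.2 ⟨x, hx⟩)
  let bas : ∀ i : ℤ, Module.Basis (Fin (Module.finrank 𝕜 (ShiftedHom P E i))) 𝕜 (ShiftedHom P E i) :=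
    fun i => Module.finBasis 𝕜 (ShiftedHom P E i)
  refine ⟨Σ i : S, Fin (Module.finrank 𝕜 (ShiftedHom P E i.1)), inferInstance, fun a => a.1.1,
    fun a => Pi.single a.1.1 (bas a.1.1 a.2), fun a => Pi.single a.1.1 ((bas a.1.1).coord a.2),
    ?_, ?_, ?_, ?_⟩
  · intro a
    change (Pi.single a.1.1 (bas a.1.1 a.2) : ∀ i, ShiftedHom P E i) a.1.1 ≠ 0
    rw [Pi.single_eq_same]
    exact (bas a.1.1).ne_zero a.2
  · intro a i hi
    exact Pi.single_eq_of_ne hi _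
  · intro a i hi
    exact Pi.single_eq_of_ne hi _
  · intro i x
    by_cases hi : i ∈ S
    · rw [Fintype.sum_sigma, Finset.sum_eq_single (⟨i, hi⟩ : S)]
      · conv_lhs => rw [← (bas i).sum_repr x]
        refine Finset.sum_congr rfl fun l _ => ?_
        simp [Pi.single_eq_same]
      · intro s _ hs
        have : i ≠ s.1 := fun h3 => hs (Subtype.ext h3.symm)
        refine Finset.sum_eq_zero fun l _ => ?_
        simp only [Pi.single_eq_of_ne this]
        simp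
      · simp
    · rw [hS i x hi]
      simp

/-- the projections of the tensor product to `P` are jointly faithful -/
theorem IsTensor.joint {P E : C} {r : ℤ} {M : C}
    {ι : ∀ i j : ℤ, i + r = j → (ShiftedHom P E i →ₗ[𝕜] ShiftedHom P M j)}
    (hM : IsTensor 𝕜 P E r M ι) (hfin : FinHom 𝕜 P E) :
    ∃ (A : Type) (_ : Fintype A) (deg : A → ℤ) (ρ : ∀ a, ShiftedHom M P (-(deg a + r))),
      (∀ a, ∃ x : ShiftedHom P E (deg a), x ≠ 0) ∧
      ∀ {X : C} {d : ℤ} (m : ShiftedHom X M d),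
        (∀ a, m.comp (ρ a) (rfl : -(deg a + r) + d = _) = 0) → m = 0 := by
  classical
  obtain ⟨A, _, deg, b, lam, hb, hlam, hb', hx⟩ := hfin.decomp
  have hρ : ∀ a : A, ∃ ρ : ShiftedHom M P (-(deg a + r)), ∀ (i j : ℤ) (h : i + r = j)
      (x : ShiftedHom P E i) (m : ℤ) (hm : -(deg a + r) + j = m), (ι i j h x).comp ρ hm =
        if hm0 : m = 0 then lam a i x • one P m hm0 else 0 := fun a =>
    hM.proj (deg a) (lam a) (-(deg a + r)) (by omega) (hlam a)
  choose ρ hρ using hρ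
  refine ⟨A, inferInstance, deg, ρ, fun a => ⟨_, hb a⟩, fun {X d} m hz => ?_⟩
  let Γ : ShiftedHom M M (0 : ℤ) := ∑ a : A,
    (ρ a).comp (c := 0) (ι (deg a) (deg a + r) rfl (b a (deg a))) (by omega)
  let g : M ⟶ M := (ShiftedHom.homEquiv (0 : ℤ) rfl).symm Γ
  have hg : ShiftedHom.mk₀ 0 rfl g = Γ := (ShiftedHom.homEquiv (0 : ℤ) rfl).apply_symm_apply Γ
  have hid : g = 𝟙 M := by
    refine hM.hom_ext fun i j h x => ?_
    rw [CategoryTheory.Functor.map_id, Category.comp_id, ← ShiftedHom.comp_mk₀ _ (0 : ℤ) rfl, hg,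
      comp_sum]
    conv_rhs => rw [hx i x, map_sum]
    refine Finset.sum_congr rfl fun a _ => ?_
    rw [← ShiftedHom.comp_assoc (h₁₂ := (rfl : -(deg a + r) + j = _)) (h := by omega), hρ a]
    by_cases hi : i = deg a
    · subst hi
      rw [dif_pos (by omega), ShiftedHom.smul_comp, map_smul]
      congr 1
      subst h
      exact ShiftedHom.mk₀_id_comp _ (by omega) _
    · rw [dif_neg (by omega), hb' a i hi, hlam a i hi]
      simp
  have h1 : m.comp (ShiftedHom.mk₀ (0 : ℤ) rfl (𝟙 M)) (zero_add d) = m :=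
    ShiftedHom.comp_mk₀_id m 0 rfl
  rw [← h1, ← hid, hg, comp_sum]
  refine Finset.sum_eq_zero fun a _ => ?_
  rw [← ShiftedHom.comp_assoc (h₁₂ := (rfl : -(deg a + r) + d = _)) (h := by omega), hz a,
    ShiftedHom.zero_comp]

/-- a non-zero graded morphism to the tensor product has a non-zero component -/
theorem IsTensor.exists_proj {P E : C} {r : ℤ} {M : C}
    {ι : ∀ i j : ℤ, i + r = j → (ShiftedHom P E i →ₗ[𝕜] ShiftedHom P M j)}
    (hM : IsTensor 𝕜 P E r M ι) (hfin : FinHom 𝕜 P E) {X : C} {d : ℤ} (m : ShiftedHom X M d)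
    (hm : m ≠ 0) : ∃ (i : ℤ) (x : ShiftedHom P E i) (s : ℤ) (ρ : ShiftedHom M P s),
      s + (i + r) = 0 ∧ x ≠ 0 ∧ m.comp ρ (rfl : s + d = s + d) ≠ 0 := by
  obtain ⟨A, _, deg, ρ, hb, h⟩ := hM.joint hfin
  by_contra hcon
  push Not at hcon
  refine hm (h m fun a => ?_)
  obtain ⟨x, hx⟩ := hb a
  exact hcon (deg a) x (-(deg a + r)) (ρ a) (by omega) hx

/-- the inclusion of a non-zero element has a retraction -/
theorem IsTensor.retraction {P E : C} {r : ℤ} {M : C}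
    {ι : ∀ i j : ℤ, i + r = j → (ShiftedHom P E i →ₗ[𝕜] ShiftedHom P M j)}
    (hM : IsTensor 𝕜 P E r M ι) {i j : ℤ} (h : i + r = j) (x : ShiftedHom P E i) (hx : x ≠ 0)
    (s : ℤ) (hs : s + j = 0) :
    ∃ ρ : ShiftedHom M P s, (ι i j h x).comp ρ hs = one P 0 rfl := by
  classical
  obtain ⟨l, hl⟩ : ∃ l : ShiftedHom P E i →ₗ[𝕜] 𝕜, l x = 1 :=
     Module.Projective.exists_dual_eq_one 𝕜 hx
  obtain ⟨ρ, hρ⟩ := hM.proj i (Pi.single i l) s (by omega)
    (fun i' hi' => Pi.single_eq_of_ne hi' _)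
  refine ⟨ρ, ?_⟩
  rw [hρ i j h x 0 hs, dif_pos rfl, Pi.single_eq_same, hl, one_smul]

/-- precomposition of the inclusion of a non-zero element -/
theorem IsTensor.comp_ne_zero {P E : C} {r : ℤ} {M : C}
    {ι : ∀ i j : ℤ, i + r = j → (ShiftedHom P E i →ₗ[𝕜] ShiftedHom P M j)}
    (hM : IsTensor 𝕜 P E r M ι) {i j : ℤ} (h : i + r = j) (x : ShiftedHom P E i) (hx : x ≠ 0)
    {X : C} {a c : ℤ} (g : ShiftedHom X P a) (hg : g ≠ 0) (hc : j + a = c) :
    g.comp (ι i j h x) hc ≠ 0 := by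
  intro h0
  obtain ⟨ρ, hρ⟩ := hM.retraction h x hx (-j) (by omega)
  apply hg
  have h1 : g.comp (one P 0 rfl) (zero_add a) = g := ShiftedHom.comp_mk₀_id g 0 rfl
  rw [← h1, ← hρ, ← ShiftedHom.comp_assoc (h₁₂ := hc) (h := by omega), h0, ShiftedHom.zero_comp]

end

end Pool.Agent.H749.PT
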