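import Pool.Agent.H749.PT.Endo

set_option autoImplicit false
set_option linter.unusedSectionVars false
set_option linter.unusedVariables false

open CategoryTheory CategoryTheory.Limits CategoryTheory.Pretriangulated
open Pool.Agent.V1166.Sph (tpow IsCalabiYau)

namespace Pool.Agent.H749.PT

universe v u w

variable (𝕜 : Type w) [Field 𝕜] {C : Type u} [Category.{v} C] [Preadditive C] [Linear 𝕜 C]
  [HasZeroObject C] [HasShift C ℤ] [∀ n : ℤ, (shiftFunctor C n).Additive] [Pretriangulated C]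

/-- The two distinguished triangles which define the `ℙ`-twist `F` of the object `E` along the
object `P`, with `t` in `Hom(P, P⟦k⟧)`: the cone `G` of the morphism
`H = t ⊗ id - id ⊗ t : Hom^*(P, E) ⊗ P⟦-k⟧ ⟶ Hom^*(P, E) ⊗ P`, and the cone `F` of a morphism
`e : G ⟶ E` through which the evaluation morphism `Hom^*(P, E) ⊗ P ⟶ E` factors. -/
structure PTwistTriangles {P : C} {k : ℤ} (t : ShiftedHom P P k) (E F : C) where
  /-- the object `Hom^*(P, E) ⊗ P⟦-k⟧` -/
  M' : C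
  /-- the object `Hom^*(P, E) ⊗ P` -/
  M : C
  /-- the cone of `H` -/
  G : C
  /-- the structure maps of `M'` -/
  ι' : ∀ i j : ℤ, i + k = j → (ShiftedHom P E i →ₗ[𝕜] ShiftedHom P M' j)
  /-- the structure maps of `M` -/
  ι : ∀ i j : ℤ, i + 0 = j → (ShiftedHom P E i →ₗ[𝕜] ShiftedHom P M j)
  tensor' : IsTensor 𝕜 P E k M' ι'
  tensor : IsTensor 𝕜 P E 0 M ι
  /-- the morphism `t ⊗ id - id ⊗ t` -/
  H : M' ⟶ M
  H_eq : ∀ (i j : ℤ) (h : i + k = j) (x : ShiftedHom P E i), ι' i j h x ≫ H⟦j⟧' =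
    ι j j (add_zero j) (t.comp x h) - t.comp (ι i i (add_zero i) x) h
  /-- the morphism to the cone -/
  p : M ⟶ G
  /-- the connecting morphism of the cone -/
  δ : G ⟶ M'⟦(1 : ℤ)⟧
  dist : Triangle.mk H p δ ∈ distTriang C
  /-- the morphism induced by the evaluation -/
  e : G ⟶ E
  p_e : ∀ (i : ℤ) (x : ShiftedHom P E i), ι i i (add_zero i) x ≫ (p ≫ e)⟦i⟧' = x
  /-- the morphism from the object to its twist -/
  q : E ⟶ F
  /-- the connecting morphism -/
  δ' : F ⟶ G⟦(1 : ℤ)⟧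
  dist' : Triangle.mk e q δ' ∈ distTriang C

variable {𝕜}
variable [∀ n : ℤ, (shiftFunctor C n).Linear 𝕜]
  {n : ℕ} {k : ℤ} {P : C} {t : ShiftedHom P P k} {E F : C}

namespace PTwistTriangles

variable (D : PTwistTriangles 𝕜 t E F)

/-- the inclusion of an element of `Hom^i(P, E)` in `G` -/
def jj {i : ℤ} (x : ShiftedHom P E i) : ShiftedHom P D.G i := D.ι i i (add_zero i) x ≫ D.p⟦i⟧'

theorem jj_e {i : ℤ} (x : ShiftedHom P E i) : D.jj x ≫ D.e⟦i⟧' = x := by
  rw [jj, Category.assoc, ← Functor.map_comp, D.p_e]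

theorem jj_zero {i : ℤ} : D.jj (0 : ShiftedHom P E i) = 0 := by
  rw [jj, map_zero, Limits.zero_comp]

theorem jj_c1 {i j : ℤ} (x : ShiftedHom P E i) (h : 1 + i = j) :
    c1 D.δ (D.jj x) j h = 0 := zero23 D.dist _ _

theorem kill {i : ℤ} (x : ShiftedHom P E i) : x ≫ D.q⟦i⟧' = 0 := by
  rw [← D.jj_e x]
  exact zero12 D.dist' _

theorem jj_t {i j : ℤ} (x : ShiftedHom P E i) (h : i + k = j) :
    D.jj (t.comp x h) = t.comp (D.jj x) h := by
  have h1 : (D.ι' i j h x ≫ D.H⟦j⟧') ≫ D.p⟦j⟧' = 0 := zero12 D.dist _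
  rw [D.H_eq, Preadditive.sub_comp, sub_eq_zero, comp_map0] at h1
  exact h1

theorem jj_add {i : ℤ} (x y : ShiftedHom P E i) : D.jj (x + y) = D.jj x + D.jj y := by
  rw [jj, jj, jj, map_add, Preadditive.add_comp]

theorem jj_smul {i : ℤ} (c : 𝕜) (x : ShiftedHom P E i) : D.jj (c • x) = c • D.jj x := by
  rw [jj, jj, map_smul, Linear.smul_comp]

theorem jj_lin (hP : IsPObj 𝕜 n k P t) {a : ℤ} (r : ShiftedHom P P a) :
    ∀ {i j : ℤ} (x : ShiftedHom P E i) (h : i + a = j),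
      D.jj (r.comp x h) = r.comp (D.jj x) h := by
  refine hP.induct (fun a r => ∀ {i j : ℤ} (x : ShiftedHom P E i) (h : i + a = j),
      D.jj (r.comp x h) = r.comp (D.jj x) h) ?_ ?_ ?_ ?_ ?_ a r
  · intro a ha i j x h
    subst ha
    obtain rfl : i = j := by omega
    rw [one, ShiftedHom.mk₀_id_comp, ShiftedHom.mk₀_id_comp]
  · intro a b hb f hf i j x h
    rw [ShiftedHom.comp_assoc (a₂₃ := i + k) (h₁₂ := hb) (h₂₃ := rfl) (h := by omega),
      ShiftedHom.comp_assoc (a₂₃ := i + k) (h₁₂ := hb) (h₂₃ := rfl) (h := by omega), hf,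
      D.jj_t]
  · intro a i j x h
    rw [ShiftedHom.zero_comp, ShiftedHom.zero_comp, jj_zero]
  · intro a f g hf hg i j x h
    rw [ShiftedHom.add_comp, ShiftedHom.add_comp, jj_add, hf, hg]
  · intro a c f hf i j x h
    rw [ShiftedHom.smul_comp, ShiftedHom.smul_comp, jj_smul, hf]

variable {X : C} {l β : ℤ}

/-- vanishing of graded morphisms to the tensor product -/
theorem _root_.Pool.Agent.H749.PT.IsTensor.low {r : ℤ} {M : C}
    {ι : ∀ i j : ℤ, i + r = j → (ShiftedHom P E i →ₗ[𝕜] ShiftedHom P M j)}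
    (hM : IsTensor 𝕜 P E r M ι) (hfin : FinHom 𝕜 P E)
    (hl : ∀ i, i < l → ∀ x : ShiftedHom P E i, x = 0)
    (hβ : ∀ i, i < β → ∀ x : ShiftedHom X P i, x = 0) {d : ℤ} (hd : d < l + β + r)
    (m : ShiftedHom X M d) : m = 0 := by
  by_contra hm
  obtain ⟨i, x, s, ρ, hs, hx, hρ⟩ := hM.exists_proj hfin m hm
  have h1 : l ≤ i := by
    by_contra hcon
    exact hx (hl i (by omega) x)
  exact hρ (hβ (s + d) (by omega) _)

/-- vanishing of graded morphisms to the cone `G` -/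
theorem low_G (hfin : FinHom 𝕜 P E)
    (hl : ∀ i, i < l → ∀ x : ShiftedHom P E i, x = 0)
    (hβ : ∀ i, i < β → ∀ x : ShiftedHom X P i, x = 0) {d : ℤ} (hd : d < l + β)
    (hd' : d < l + β + k - 1)
    (m : ShiftedHom X D.G d) : m = 0 := by
  obtain ⟨y, rfl⟩ := exact3 D.dist m (rfl : 1 + d = 1 + d)
    (D.tensor'.low hfin hl hβ (by omega) _)
  rw [D.tensor.low hfin hl hβ (by omega) y, Limits.zero_comp]

end PTwistTriangles

end Pool.Agent.H749.PT
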